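import Pool.Agent.Q8.NK.Quot

/-!
# The form on the primitive parts
-/

open scoped ComplexConjugate
open Module

namespace Pool.Agent.Q8.NK

open Pool.Agent.W539.DI

variable {n : ℕ} {X : KRing n} {κ : X.R}

/-- the sesquilinear form `∫ x^∨ κ^j bar y` -/
noncomputable def Mf (X : KRing n) (κ : X.R) (j : ℕ) (x y : X.R) : ℂ :=
  X.tr (X.dual x * (κ ^ j * X.bar y))

/-- its symmetrised real part -/
noncomputable def bf (X : KRing n) (κ : X.R) (j : ℕ) (x y : X.R) : ℝ :=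
  (Mf X κ j x y).re + (Mf X κ j y x).re

theorem Mf_add (j : ℕ) (x y z : X.R) : Mf X κ j (x + y) z = Mf X κ j x z + Mf X κ j y z := by
  unfold Mf
  rw [map_add, add_mul, map_add]

theorem Mf_add' (j : ℕ) (x y z : X.R) : Mf X κ j x (y + z) = Mf X κ j x y + Mf X κ j x z := by
  unfold Mf
  rw [map_add, mul_add, mul_add, map_add]

theorem Mf_smul (j : ℕ) (a : ℂ) (x z : X.R) : Mf X κ j (a • x) z = a * Mf X κ j x z := by
  unfold Mf
  rw [map_smul, smul_mul_assoc, map_smul, smul_eq_mul]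

theorem Mf_smul' (j : ℕ) (a : ℂ) (x z : X.R) : Mf X κ j x (a • z) = conj a * Mf X κ j x z := by
  unfold Mf
  rw [LinearMap.map_smulₛₗ, mul_smul_comm, mul_smul_comm, map_smul, smul_eq_mul]

theorem bf_symm (j : ℕ) (x y : X.R) : bf X κ j x y = bf X κ j y x := by
  unfold bf
  ring

theorem bf_add (j : ℕ) (x y z : X.R) : bf X κ j (x + y) z = bf X κ j x z + bf X κ j y z := by
  unfold bf
  rw [Mf_add, Mf_add', Complex.add_re, Complex.add_re]
  ring

theorem bf_smul (j : ℕ) (r : ℝ) (x z : X.R) : bf X κ j ((r : ℂ) • x) z = r * bf X κ j x z := by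
  unfold bf
  rw [Mf_smul, Mf_smul', Complex.conj_ofReal, Complex.re_ofReal_mul, Complex.re_ofReal_mul]
  ring

theorem Mf_neg_left (hκ : κ ∈ X.H (1, 1)) (hr : X.bar κ = κ) {j : ℕ} {z y : X.R}
    (hz : Neg X κ j z) (hy : y ∈ U X κ j) : Mf X κ j z y = 0 := by
  obtain ⟨u, _, h2⟩ := hz
  have h3 : κ ^ (j + 1) * X.bar y = 0 := by
    rw [← bar_pow' hr, mem_U.mp hy, map_zero]
  have h4 : κ ^ j * X.dual z = - (κ ^ (j + 1) * X.dual u) := by
    have e1 := dual_pow hκ j z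
    have e2 := dual_pow hκ (j + 1) u
    rw [h2, e2] at e1
    have h5 : ((-1 : ℂ) ^ j) * (-1 : ℂ) ^ j = 1 := by
      rw [← mul_pow]; norm_num
    calc κ ^ j * X.dual z = ((-1 : ℂ) ^ j * (-1 : ℂ) ^ j) • (κ ^ j * X.dual z) := by
          rw [h5, one_smul]
      _ = (-1 : ℂ) ^ j • ((-1 : ℂ) ^ (j + 1) • (κ ^ (j + 1) * X.dual u)) := by
          rw [mul_smul, ← e1]
      _ = - (κ ^ (j + 1) * X.dual u) := by
          rw [smul_smul, pow_succ, ← mul_assoc, h5]
          simp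
  have h6 : X.dual z * (κ ^ j * X.bar y) = 0 := by
    rw [← mul_assoc, ← pow_central' hκ, h4, neg_mul, pow_central' hκ, mul_assoc, h3, mul_zero,
      neg_zero]
  unfold Mf
  rw [h6, map_zero]

theorem Mf_neg_right (hκ : κ ∈ X.H (1, 1)) (hr : X.bar κ = κ) {j : ℕ} {z y : X.R}
    (hz : Neg X κ j z) (hy : y ∈ U X κ j) : Mf X κ j y z = 0 := by
  obtain ⟨u, _, h2⟩ := hz
  have h3 : κ ^ j * X.bar z = κ ^ (j + 1) * X.bar u := by
    rw [← bar_pow' hr, h2, bar_pow' hr]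
  have h4 : κ ^ (j + 1) * X.dual y = 0 := by
    have e1 := dual_pow hκ (j + 1) y
    rw [mem_U.mp hy, map_zero] at e1
    exact (smul_eq_zero.mp e1.symm).resolve_left (pow_ne_zero _ (by norm_num))
  have h6 : X.dual y * (κ ^ j * X.bar z) = 0 := by
    rw [h3, ← mul_assoc, ← pow_central' hκ, h4, zero_mul]
  unfold Mf
  rw [h6, map_zero]

theorem bf_neg (hκ : κ ∈ X.H (1, 1)) (hr : X.bar κ = κ) {j : ℕ} {z y : X.R}
    (hz : Neg X κ j z) (hy : y ∈ U X κ j) : bf X κ j z y = 0 := by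
  unfold bf
  rw [Mf_neg_left hκ hr hz hy, Mf_neg_right hκ hr hz hy]
  simp

theorem Mf_skew (hκ : κ ∈ X.H (1, 1)) {w : X.R} (hw : w ∈ X.H (1, 1)) (hwr : X.bar w = w) (j : ℕ)
    (x y : X.R) : Mf X κ j (w * x) y = - Mf X κ j x (w * y) := by
  unfold Mf
  rw [dual_mul hw, X.bar_mul, hwr, neg_mul, map_neg]
  congr 2
  rw [X.central hw (X.dual x), mul_assoc, ← mul_assoc (κ ^ j) w, pow_central' hκ j w, mul_assoc]

theorem bf_skew (hκ : κ ∈ X.H (1, 1)) {w : X.R} (hw : w ∈ X.H (1, 1)) (hwr : X.bar w = w) (j : ℕ)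
    (x y : X.R) : bf X κ j (w * x) y = - bf X κ j x (w * y) := by
  unfold bf
  rw [Mf_skew hκ hw hwr, Complex.neg_re]
  have := Mf_skew hκ hw hwr j y x
  have h2 : Mf X κ j y (w * x) = - Mf X κ j (w * y) x := by rw [this, neg_neg]
  rw [h2, Complex.neg_re]
  ring

theorem Mf_hom (hκ : κ ∈ X.H (1, 1)) (j : ℕ) {p q : ℤ} {x : X.R} (hx : x ∈ X.H (p, q)) (y : X.R) :
    Mf X κ j x y = Complex.I ^ (p + q) * X.tr (κ ^ j * (x * X.bar y)) := by
  unfold Mf
  rw [X.dual_of hx, smul_mul_assoc, map_smul, smul_eq_mul, ← mul_assoc x, ← pow_central' hκ,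
    mul_assoc]

theorem Mf_type (hκ : κ ∈ X.H (1, 1)) (j : ℕ) {p q p' q' : ℤ} {x y : X.R} (hx : x ∈ X.H (p, q))
    (hy : y ∈ X.H (p', q')) (h : ¬ (p + q' + j = n ∧ q + p' + j = n)) : Mf X κ j x y = 0 := by
  rw [Mf_hom hκ j hx, X.tr_van _ _ _ (X.pow_mul_mem hκ j (X.mul_mem hx (X.bar_mem _ _ _ hy))) h,
    mul_zero]

theorem bf_type (hκ : κ ∈ X.H (1, 1)) (j : ℕ) {p q p' q' : ℤ} {x y : X.R} (hx : x ∈ X.H (p, q))
    (hy : y ∈ X.H (p', q')) (h : ¬ (p + q' + j = n ∧ q + p' + j = n)) : bf X κ j x y = 0 := by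
  unfold bf
  rw [Mf_type hκ j hx hy h, Mf_type hκ j hy hx (fun h' => h ⟨by omega, by omega⟩)]
  simp

/-- Hermitian symmetry. -/
theorem Mf_conj (hκ : κ ∈ X.H (1, 1)) (hr : X.bar κ = κ) (j : ℕ) {a b i c : ℤ} (hab : a + b = c)
    {x y : X.R} (hx : x ∈ X.H (a + i, b + i)) (hy : y ∈ X.H (a - i, b - i)) :
    Mf X κ j y x = conj (Mf X κ j x y) := by
  have hbx := X.bar_mem _ _ _ hx
  rw [Mf_hom hκ j hy, Mf_hom hκ j hx, RingHom.map_mul (starRingEnd ℂ), ← X.tr_bar, bar_pow' hr,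
    X.bar_mul, X.bar_bar, X.comm _ _ _ _ _ _ hbx hy, mul_smul_comm, LinearMap.map_smul,
    smul_eq_mul, I_zpow_conj]
  have e1 : (a - i + (b - i) : ℤ) = c + (-2 * i) := by omega
  have e2 : (a + i + (b + i) : ℤ) = c + 2 * i := by omega
  have e3 : (b + i + (a + i) : ℤ) = c + 2 * i := by omega
  rw [e1, e2, e3]
  have hI : Complex.I ^ (c + 2 * i) = Complex.I ^ (c + (-2 * i)) := by
    rw [zpow_add₀ Complex.I_ne_zero, zpow_add₀ Complex.I_ne_zero]
    congr 1
    rw [zpow_mul, zpow_mul]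
    have h2 : (Complex.I : ℂ) ^ (2 : ℤ) = -1 := by
      rw [show (2 : ℤ) = ((2 : ℕ) : ℤ) from rfl, zpow_natCast, Complex.I_sq]
    have h3 : (Complex.I : ℂ) ^ (-2 : ℤ) = -1 := by
      rw [zpow_neg, h2]; norm_num
    rw [h2, h3]
  rw [hI]
  have s1 : (-1 : ℂ) ^ ((c + 2 * i) * (c + (-2 * i))) = (-1 : ℂ) ^ (c + 2 * i) := by
    have : Even (((c + 2 * i) * (c + (-2 * i))) - (c + 2 * i)) := by
      have : ((c + 2 * i) * (c + (-2 * i))) - (c + 2 * i)
          = c * (c - 1) - 2 * (2 * i * i + i) := by ring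
      rw [this]
      refine Even.sub (Int.even_mul_pred_self _) ⟨2 * i * i + i, by ring⟩
    have h4 : (-1 : ℂ) ^ (((c + 2 * i) * (c + (-2 * i))) - (c + 2 * i)) = 1 :=
      Even.neg_one_zpow this
    rw [zpow_sub₀ (by norm_num)] at h4
    have h5 : (-1 : ℂ) ^ (c + 2 * i) ≠ 0 := zpow_ne_zero _ (by norm_num)
    field_simp at h4
    exact h4
  have s2 : (-1 : ℂ) ^ (c + 2 * i) * (-1 : ℂ) ^ (c + 2 * i) = 1 := by
    rw [← mul_zpow]; norm_num
  rw [s1]
  linear_combination (-(Complex.I ^ (c + -2 * i) * X.tr (κ ^ j * (y * X.bar x)))) * s2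

/-- Poincaré duality: a class orthogonal to `ker κ^m` is in the image of `κ^m`. -/
theorem dual_range (hκ : κ ∈ X.H (1, 1)) (m : ℕ) (P Q : ℤ) {z : X.R} (hz : z ∈ X.H (P, Q))
    (h : ∀ w ∈ X.H (n - P, n - Q), κ ^ m * w = 0 → X.tr (z * w) = 0) :
    ∃ y ∈ X.H (P - m, Q - m), κ ^ m * y = z := by
  let f : X.H (n - P, n - Q) →ₗ[ℂ] X.H (n - P + m, n - Q + m) :=
    ((LinearMap.mulLeft ℂ (κ ^ m)).comp (X.H (n - P, n - Q)).subtype).codRestrict _
      fun x => X.pow_mul_mem hκ m x.2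
  let φ : X.H (n - P, n - Q) →ₗ[ℂ] ℂ :=
    X.tr.comp ((LinearMap.mulLeft ℂ z).comp (X.H (n - P, n - Q)).subtype)
  have hφ : φ ∈ (LinearMap.ker f).dualAnnihilator := by
    rw [Submodule.mem_dualAnnihilator]
    intro w hw
    exact h w w.2 (congrArg Subtype.val hw)
  rw [← LinearMap.range_dualMap_eq_dualAnnihilator_ker] at hφ
  obtain ⟨g, hg⟩ := hφ
  -- the pairing between `D` and `B`
  let T : X.H (P - m, Q - m) →ₗ[ℂ] Module.Dual ℂ (X.H (n - P + m, n - Q + m)) :=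
    LinearMap.mk₂ ℂ (fun y w => X.tr ((y : X.R) * (w : X.R)))
      (fun a b c => by rw [Submodule.coe_add, add_mul, map_add])
      (fun a b c => by rw [Submodule.coe_smul, smul_mul_assoc, map_smul])
      (fun a b c => by rw [Submodule.coe_add, mul_add, map_add])
      (fun a b c => by rw [Submodule.coe_smul, mul_smul_comm, map_smul])
  let T' : X.H (n - P + m, n - Q + m) →ₗ[ℂ] Module.Dual ℂ (X.H (P - m, Q - m)) :=
    LinearMap.mk₂ ℂ (fun y w => X.tr ((y : X.R) * (w : X.R)))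
      (fun a b c => by rw [Submodule.coe_add, add_mul, map_add])
      (fun a b c => by rw [Submodule.coe_smul, smul_mul_assoc, map_smul])
      (fun a b c => by rw [Submodule.coe_add, mul_add, map_add])
      (fun a b c => by rw [Submodule.coe_smul, mul_smul_comm, map_smul])
  have hTi : Function.Injective T := by
    rw [injective_iff_map_eq_zero]
    intro y hy
    refine Subtype.ext (X.pd _ _ _ y.2 fun w hw => ?_)
    have e : ((n - (P - m), n - (Q - m)) : ℤ × ℤ) = (n - P + m, n - Q + m) := by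
      ext <;> simp <;> ring
    rw [e] at hw
    exact LinearMap.congr_fun hy ⟨w, hw⟩
  have hTi' : Function.Injective T' := by
    rw [injective_iff_map_eq_zero]
    intro y hy
    refine Subtype.ext (X.pd _ _ _ y.2 fun w hw => ?_)
    have e : ((n - (n - P + m), n - (n - Q + m)) : ℤ × ℤ) = (P - m, Q - m) := by
      ext <;> simp <;> ring
    rw [e] at hw
    exact LinearMap.congr_fun hy ⟨w, hw⟩
  have h1 := LinearMap.finrank_le_finrank_of_injective hTi
  have h2 := LinearMap.finrank_le_finrank_of_injective hTi'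
  rw [Subspace.dual_finrank_eq] at h1 h2
  have hTs : Function.Surjective T :=
    (LinearMap.injective_iff_surjective_of_finrank_eq_finrank
      (by rw [Subspace.dual_finrank_eq]; omega)).mp hTi
  obtain ⟨y, hy⟩ := hTs g
  refine ⟨y, y.2, ?_⟩
  have hmem : κ ^ m * (y : X.R) ∈ X.H (P, Q) := by
    have := X.pow_mul_mem hκ m y.2
    rwa [sub_add_cancel, sub_add_cancel] at this
  have h3 : κ ^ m * (y : X.R) - z = 0 := by
    refine X.pd _ _ _ (Submodule.sub_mem _ hmem hz) fun w hw => ?_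
    have e1 : X.tr (z * w) = X.tr ((y : X.R) * (κ ^ m * w)) := by
      have := LinearMap.congr_fun hg ⟨w, hw⟩
      rw [← hy] at this
      exact this.symm
    rw [sub_mul, map_sub, e1, pow_central' hκ, mul_assoc, sub_self]
  exact sub_eq_zero.mp h3

/-- Nondegeneracy of the form on the primitive part. -/
theorem bf_nondeg (hκ : κ ∈ X.H (1, 1)) (hr : X.bar κ = κ) {j c : ℕ} (hc : c + j = n)
    {a b i : ℤ} (hab : a + b = c) {x : X.R} (hx : x ∈ X.H (a + i, b + i)) (hxU : x ∈ U X κ j)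
    (h : ∀ y ∈ X.H (a - i, b - i), y ∈ U X κ j → bf X κ j x y = 0) : Neg X κ j x := by
  have hn : (n : ℤ) = c + j := by exact_mod_cast hc.symm
  obtain ⟨y, -, hy⟩ := dual_range hκ (j + 1) (a + i + j) (b + i + j) (X.pow_mul_mem hκ j hx) (by
    intro w hw hw0
    have e : (((n : ℤ) - (a + i + j), (n : ℤ) - (b + i + j)) : ℤ × ℤ) = (b - i, a - i) := by
      ext <;> simp <;> omega
    rw [e] at hw
    have hy := X.bar_mem _ _ _ hw
    have hyU : X.bar w ∈ U X κ j := by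
      rw [mem_U, ← bar_pow' hr, hw0, map_zero]
    set τ := Mf X κ j x (X.bar w) with hτ
    have h1 := h (τ • X.bar w) (Submodule.smul_mem _ _ hy) (Submodule.smul_mem _ _ hyU)
    unfold bf at h1
    rw [Mf_conj hκ hr j hab hx (Submodule.smul_mem _ _ hy), Mf_smul', ← hτ] at h1
    have e3 : conj τ * τ = ((Complex.normSq τ : ℝ) : ℂ) := Complex.normSq_eq_conj_mul_self.symm
    rw [e3] at h1
    simp only [Complex.conj_ofReal, Complex.ofReal_re] at h1
    have h2 : Complex.normSq τ = 0 := by linarith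
    have h3 : τ = 0 := Complex.normSq_eq_zero.mp h2
    rw [hτ, Mf_hom hκ j hx, X.bar_bar, mul_eq_zero] at h3
    rcases h3 with h3 | h3
    · exact absurd h3 (zpow_ne_zero _ Complex.I_ne_zero)
    · rwa [mul_assoc])
  refine ⟨y, ?_, hy.symm⟩
  rw [show j + 2 = (j + 1) + 1 from rfl, pow_succ', mul_assoc, hy, ← mul_assoc, ← pow_succ']
  exact mem_U.mp hxU

/-- The Hodge-Riemann relations in terms of `bf`, for even `l`. -/
theorem bf_hr (h : IsNef X κ) {j l : ℕ} (hl : Even l) {p q : ℤ} (hpq : p + q + j + l = n) {x : X.R}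
    (hx : x ∈ X.H (p, q)) (hxU : x ∈ U X κ j) (h0 : Neg X κ j (X.ω ^ (l + 1) * x))
    (h1 : ¬ Neg X κ j x) : 0 < sg p q * bf X κ j x (X.ω ^ l * x) := by
  obtain ⟨r, hr, he⟩ := h.hr j l p q hpq x hx hxU h0 h1
  have hI : Complex.I ^ (p + q) = Complex.I ^ (p - q) * (-1 : ℂ) ^ q := by
    have e : (p + q : ℤ) = (p - q) + 2 * q := by ring
    rw [e, zpow_add₀ Complex.I_ne_zero, zpow_mul]
    congr 2
    rw [show (2 : ℤ) = ((2 : ℕ) : ℤ) from rfl, zpow_natCast, Complex.I_sq]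
  have hwx : X.ω ^ l * x ∈ X.H (p + l, q + l) := X.pow_mul_mem X.ω_mem l hx
  have e1 : Mf X κ j x (X.ω ^ l * x) = Complex.I ^ (p + q) *
      X.tr (κ ^ j * (X.ω ^ l * (x * X.bar x))) := by
    rw [Mf_hom h.mem j hx, bar_pow' X.ω_bar, ← mul_assoc x, ← pow_central' X.ω_mem, mul_assoc]
  have e2 : Mf X κ j (X.ω ^ l * x) x = Complex.I ^ (p + q) *
      X.tr (κ ^ j * (X.ω ^ l * (x * X.bar x))) := by
    rw [Mf_hom h.mem j hwx, mul_assoc (X.ω ^ l)]
    congr 1
    obtain ⟨t, rfl⟩ := hl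
    have e : (p + ((t + t : ℕ) : ℤ) + (q + ((t + t : ℕ) : ℤ)) : ℤ) = p + q + 4 * t := by
      push_cast; ring
    rw [e, zpow_add₀ Complex.I_ne_zero, zpow_mul,
      show (4 : ℤ) = ((4 : ℕ) : ℤ) from rfl, zpow_natCast Complex.I 4, Complex.I_pow_four]
    simp
  have e3 : (sg p q : ℂ) * (Complex.I ^ (p + q) *
      X.tr (κ ^ j * (X.ω ^ l * (x * X.bar x)))) = r := by
    rw [← he, hI]
    unfold sg
    rw [zpow_add₀ (by norm_num)]
    push_cast
    have h5 : (-1 : ℂ) ^ q * (-1 : ℂ) ^ q = 1 := by rw [← mul_zpow]; norm_num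
    linear_combination (Complex.I ^ (p - q) * (-1 : ℂ) ^ ((p + q) * (p + q - 1) / 2) *
      X.tr (κ ^ j * (X.ω ^ l * (x * X.bar x)))) * h5
  have e4 : sg p q * bf X κ j x (X.ω ^ l * x) = 2 * r := by
    unfold bf
    rw [e1, e2]
    have := congrArg Complex.re e3
    rw [Complex.re_ofReal_mul, Complex.ofReal_re] at this
    linarith
  rw [e4]
  linarith

end Pool.Agent.Q8.NK
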