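import Pool.Agent.W539.DI.Main

/-!
# Varieties with nef canonical class: definitions

`X : KRing n` (a starting file) is the cohomology ring of a smooth projective complex variety of
dimension `n`: Hodge decomposition, integration, a polarisation `ω` with the hard Lefschetz theorem
and the Hodge-Riemann relations, and the first Chern class `c`. `FM X Y` is the cohomological shape
of an equivalence of derived categories.
-/

open Module

namespace Pool.Agent.Q8.NK

open Pool.Agent.W539.DI

variable {n : ℕ}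

/-- The *primitive part* `P_j = ker κ^(j+1) / (ker κ^j + κ ker κ^(j+2))` of the cohomology with
respect to a class `κ` of type `(1, 1)` corresponds to the Jordan blocks of length `j + 1` of the
cup product with `κ`. `Neg X κ j z` says that the class `z ∈ ker κ^(j+1)` is zero in `P_j`:
`κ^j (z - κ y) = 0` for some `y ∈ ker κ^(j+2)`. -/
def Neg (X : KRing n) (κ : X.R) (j : ℕ) (z : X.R) : Prop :=
  ∃ y, κ ^ (j + 2) * y = 0 ∧ κ ^ j * z = κ ^ (j + 1) * y

/-- The properties of a nef class `κ` (a real class of type `(1, 1)` in the closure of the Kähler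
cone): the mixed Lefschetz theorem and the mixed Hodge-Riemann relations (Cattani, Kaplan, Schmid;
Cattani; de Cataldo and Migliorini for semiample classes). For all `j` the primitive part
`P_j = ker κ^(j+1) / (ker κ^j + κ ker κ^(j+2))` satisfies the hard Lefschetz theorem and the
Hodge-Riemann relations for the polarisation `ω`, like the cohomology of a variety of dimension
`n - j`, where the integral is replaced by `∫ κ^j x`. -/
structure IsNef (X : KRing n) (κ : X.R) : Prop where
  mem : κ ∈ X.H (1, 1)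
  real : X.bar κ = κ
  /-- `ω ^ l` is injective on the part of `P_j` of degree `n - j - l` -/
  hl_inj : ∀ (j l : ℕ) (p q : ℤ), p + q + j + l = n → ∀ x ∈ X.H (p, q), κ ^ (j + 1) * x = 0 →
    Neg X κ j (X.ω ^ l * x) → Neg X κ j x
  /-- `ω ^ l` is surjective from degree `n - j - l` to degree `n - j + l` of `P_j` -/
  hl_surj : ∀ (j l : ℕ) (p q : ℤ), p + q + j + l = n → ∀ y ∈ X.H (p + l, q + l),
    κ ^ (j + 1) * y = 0 → ∃ x ∈ X.H (p, q), κ ^ (j + 1) * x = 0 ∧ Neg X κ j (y - X.ω ^ l * x)
  /-- the Hodge-Riemann relations for the classes of `P_j` which are primitive with respect to `ω` -/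
  hr : ∀ (j l : ℕ) (p q : ℤ), p + q + j + l = n → ∀ x ∈ X.H (p, q), κ ^ (j + 1) * x = 0 →
    Neg X κ j (X.ω ^ (l + 1) * x) → ¬ Neg X κ j x →
    ∃ r : ℝ, 0 < r ∧ Complex.I ^ (p - q) * (-1 : ℂ) ^ ((p + q) * (p + q - 1) / 2) *
      X.tr (κ ^ j * (X.ω ^ l * (x * X.bar x))) = (r : ℂ)

/-- the classes of type `(p, q)` in `ker κ^(j+1)` -/
def kerPart (X : KRing n) (κ : X.R) (j : ℕ) (p q : ℤ) : Submodule ℂ X.R :=
  LinearMap.ker (LinearMap.mulLeft ℂ (κ ^ (j + 1))) ⊓ X.H (p, q)

/-- the classes of type `(p, q)` which are zero in `P_j` -/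
def negPart (X : KRing n) (κ : X.R) (j : ℕ) (p q : ℤ) : Submodule ℂ X.R where
  carrier := {z | z ∈ X.H (p, q) ∧ Neg X κ j z}
  add_mem' := by
    rintro x y ⟨hx, u, hu, hu'⟩ ⟨hy, v, hv, hv'⟩
    refine ⟨Submodule.add_mem _ hx hy, u + v, ?_, ?_⟩
    · rw [mul_add, hu, hv, add_zero]
    · rw [mul_add, mul_add, hu', hv']
  zero_mem' := ⟨Submodule.zero_mem _, 0, by simp, by simp⟩
  smul_mem' := by
    rintro a x ⟨hx, u, hu, hu'⟩
    refine ⟨Submodule.smul_mem _ _ hx, a • u, ?_, ?_⟩
    · rw [mul_smul_comm, hu, smul_zero]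
    · rw [mul_smul_comm, mul_smul_comm, hu']

/-- the dimension of the part of type `(p, q)` of `P_j` -/
noncomputable def primDim (X : KRing n) (κ : X.R) (j : ℕ) (p q : ℤ) : ℕ :=
  finrank ℂ (kerPart X κ j p q) - finrank ℂ (negPart X κ j p q)

/-- The equivalence commutes with the Serre functors: `Φ (c₁(X) x) = c₁(Y) Φ(x)`. -/
def Serre {X Y : KRing n} (Φ : FM X Y) : Prop := ∀ x, Φ.φ (X.c * x) = Y.c * Φ.φ x

/-- the rank of the cup product with `κ ^ m` on `H^(p, q)` -/
noncomputable def rk (X : KRing n) (κ : X.R) (m : ℕ) (p q : ℤ) : ℕ :=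
  finrank ℂ (Submodule.map (LinearMap.mulLeft ℂ (κ ^ m)) (X.H (p, q)))

end Pool.Agent.Q8.NK
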