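import Pool.Agent.Q8.NK.Rank

/-!
# Fivefolds
-/

open scoped ComplexConjugate
open Module

namespace Pool.Agent.Q8.NK

open Pool.Agent.W539.DI

/-- The formula of Libgober and Wood for the second moment of the Hodge numbers of a fivefold,
`∑ (-1)^(p+q) (p - 5/2)^2 h^(p,q) = (5/12) c₅ + (1/6) c₁ c₄`, where `c₅ = ∑ (-1)^(p+q) h^(p,q)` and
`t` is the Chern number `c₁ c₄`. -/
def LibgoberWood5 (X : KRing 5) (t : ℤ) : Prop :=
  3 * ∑ p ∈ Finset.range 6, ∑ q ∈ Finset.range 6,
    (-1 : ℤ) ^ (p + q) * (2 * (p : ℤ) - 5) ^ 2 * (X.h p q : ℤ) =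
  5 * ∑ p ∈ Finset.range 6, ∑ q ∈ Finset.range 6, (-1 : ℤ) ^ (p + q) * (X.h p q : ℤ) + 2 * t

theorem h_bar {n : ℕ} (X : KRing n) (p q : ℤ) : X.h p q = X.h q p := by
  have key : ∀ p q : ℤ, X.h p q ≤ X.h q p := by
    intro p q
    -- the real structure: compare real dimensions
    let B : X.H (p, q) →ₗ[ℝ] X.H (q, p) :=
      { toFun := fun x => ⟨X.bar x, X.bar_mem p q x x.2⟩
        map_add' := fun x y => Subtype.ext (by simp)
        map_smul' := fun r x => Subtype.ext (by
          show X.bar ((r • x : X.H (p, q)) : X.R) = (((r • (⟨X.bar x, X.bar_mem p q x x.2⟩ :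
            X.H (q, p))) : X.H (q, p)) : X.R)
          rw [Submodule.coe_smul_of_tower, Submodule.coe_smul_of_tower,
            ← Complex.coe_smul, ← Complex.coe_smul, LinearMap.map_smulₛₗ, Complex.conj_ofReal]) }
    have hB : Function.Injective B := by
      intro x y hxy
      have h1 : X.bar (x : X.R) = X.bar (y : X.R) := congrArg Subtype.val hxy
      refine Subtype.ext ?_
      rw [← X.bar_bar x, h1, X.bar_bar]
    have h1 := LinearMap.finrank_le_finrank_of_injective hB
    rw [finrank_real_of_complex, finrank_real_of_complex] at h1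
    unfold KRing.h
    omega
  exact le_antisymm (key p q) (key q p)

theorem h_dual {n : ℕ} (X : KRing n) (p q : ℤ) (h : p + q ≤ n) :
    X.h (n - q) (n - p) = X.h p q := by
  obtain ⟨k, hk⟩ := Int.eq_ofNat_of_zero_le (show 0 ≤ (n : ℤ) - p - q by omega)
  rw [X.h_symm (p := p) (q := q) k (by omega)]
  congr 1 <;> omega

/-- `χ(O_X) = ∑ (-1)^q h^(0,q)` for a fivefold -/
noncomputable def chiO (X : KRing 5) : ℤ := ∑ q ∈ Finset.range 6, (-1 : ℤ) ^ q * (X.h 0 q : ℤ)

theorem column_total (Z : KRing 5) (k : ℤ) :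
    finrank ℂ (⨆ i : ℤ, Z.H (k + i, 0 + i) : Submodule ℂ Z.R) =
      Z.h k 0 + Z.h (k + 1) 1 + Z.h (k + 2) 2 + Z.h (k + 3) 3 + Z.h (k + 4) 4 + Z.h (k + 5) 5 := by
  have e : (⨆ i : ℤ, Z.H (k + i, 0 + i)) = Z.F k 0 (Finset.Icc 0 5) := by
    apply le_antisymm
    · refine iSup_le fun i => ?_
      by_cases hi : i ∈ Finset.Icc (0 : ℤ) 5
      · exact le_iSup₂ (f := fun i (_ : i ∈ Finset.Icc (0 : ℤ) 5) => Z.H (k + i, 0 + i)) i hi
      · have : Z.H (k + i, 0 + i) = ⊥ := by
          rw [Finset.mem_Icc] at hi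
          by_cases h1 : i < 0
          · exact Z.van _ _ (by omega)
          · exact Z.van_top (by push_cast; omega)
        rw [this]
        exact bot_le
    · exact iSup₂_le fun i _ => le_iSup (fun i : ℤ => Z.H (k + i, 0 + i)) i
  rw [e, Z.finrank_F]
  have e2 : Finset.Icc (0 : ℤ) 5 = {0, 1, 2, 3, 4, 5} := by decide
  rw [e2]
  simp
  omega

theorem h_top (Z : KRing 5) {p q : ℤ} (h : 5 < p ∨ 5 < q) : Z.h p q = 0 := by
  unfold KRing.h
  rw [Z.van_top (by push_cast; exact h), finrank_bot]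

/-- **Fivefolds.** -/
theorem fivefolds {X Y : KRing 5} {Φ : FM X Y} (hS : Serre Φ) {s : ℝ} (hs : s ≠ 0)
    (hX : IsNef X (sc X s)) (hY : IsNef Y (sc Y s))
    (hf : ∀ j : ℕ, j ≤ 1 → primDim X (sc X s) j 1 0 = primDim Y (sc Y s) j 1 0)
    (hO : primDim X (sc X s) 0 2 0 = primDim Y (sc Y s) 0 2 0 ∨ chiO X = chiO Y)
    (t : ℤ) (lX : LibgoberWood5 X t) (lY : LibgoberWood5 Y t) (p q : ℤ) : X.h p q = Y.h p q := by
  have off : ∀ p q : ℤ, q < p → (p - q = 2 → primDim X (sc X s) 0 2 0 =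
      primDim Y (sc Y s) 0 2 0) → X.h p q = Y.h p q := by
    intro p q hpq h2
    have h1 := ranks hS hs hX hY 0 p q (by
      intro j p' q' _ h1 h2' h3 h4
      have hq' : q' = 0 := by push_cast at h4; omega
      subst hq'
      rcases (show p' = 1 ∨ p' = 2 by push_cast at h4; omega) with rfl | rfl
      · exact hf j (by push_cast at h4; omega)
      · have : j = 0 := by push_cast at h4; omega
        subst this
        exact h2 (by omega))
    rwa [rk_zero, rk_zero] at h1
  have dual2 : ∀ Z : KRing 5, Z.h 4 2 = Z.h 3 1 ∧ Z.h 5 3 = Z.h 2 0 := by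
    intro Z
    have h3 := h_dual Z 3 1 (by norm_num)
    have h4 := h_dual Z 2 0 (by norm_num)
    norm_num at h3 h4
    exact ⟨h3, h4⟩
  have two : X.h 2 0 = Y.h 2 0 ∧ X.h 3 1 = Y.h 3 1 := by
    rcases hO with hO | hO
    · exact ⟨off 2 0 (by norm_num) fun _ => hO, off 3 1 (by norm_num) fun _ => hO⟩
    · have a0 : X.h 0 0 = Y.h 0 0 := by
        have h1 := X.conn
        have h2 := Y.conn
        unfold KRing.h
        omega
      have a1 := off 1 0 (by norm_num) (by norm_num)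
      have a3 := off 3 0 (by norm_num) (by norm_num)
      have a4 := off 4 0 (by norm_num) (by norm_num)
      have a5 := off 5 0 (by norm_num) (by norm_num)
      unfold chiO at hO
      simp only [Finset.sum_range_succ, Finset.sum_range_zero] at hO
      push_cast at hO
      rw [h_bar X 0 1, h_bar Y 0 1, h_bar X 0 2, h_bar Y 0 2, h_bar X 0 3, h_bar Y 0 3,
        h_bar X 0 4, h_bar Y 0 4, h_bar X 0 5, h_bar Y 0 5, a0, a1, a3, a4, a5] at hO
      have a2 : X.h 2 0 = Y.h 2 0 := by omega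
      refine ⟨a2, ?_⟩
      have h1 := column_total X 2
      have h2 := column_total Y 2
      rw [← Φ.hodge 2 0, LinearEquiv.finrank_map_eq, h1] at h2
      norm_num at h2
      obtain ⟨dX1, dX2⟩ := dual2 X
      obtain ⟨dY1, dY2⟩ := dual2 Y
      have eX1 : X.h 6 4 = 0 := h_top X (Or.inl (by norm_num))
      have eX2 : X.h 7 5 = 0 := h_top X (Or.inl (by norm_num))
      have eY1 : Y.h 6 4 = 0 := h_top Y (Or.inl (by norm_num))
      have eY2 : Y.h 7 5 = 0 := h_top Y (Or.inl (by norm_num))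
      omega
  have off' : ∀ p q : ℤ, q < p → X.h p q = Y.h p q := by
    intro p q hpq
    by_cases h2 : p - q = 2
    · by_cases hq : q < 0
      · rw [X.h_neg (Or.inr hq), Y.h_neg (Or.inr hq)]
      · by_cases hp : 5 < p
        · rw [h_top X (Or.inl hp), h_top Y (Or.inl hp)]
        · obtain rfl : p = q + 2 := by omega
          rcases (show q = 0 ∨ q = 1 ∨ q = 2 ∨ q = 3 by omega) with rfl | rfl | rfl | rfl
          · exact two.1
          · exact two.2
          · show X.h 4 2 = Y.h 4 2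
            rw [(dual2 X).1, (dual2 Y).1]; exact two.2
          · show X.h 5 3 = Y.h 5 3
            rw [(dual2 X).2, (dual2 Y).2]; exact two.1
    · exact off p q hpq fun h => absurd h h2
  have off'' : ∀ p q : ℤ, p ≠ q → X.h p q = Y.h p q := by
    intro p q hpq
    rcases lt_or_gt_of_ne hpq with h | h
    · rw [h_bar X, h_bar Y]
      exact off' q p h
    · exact off' p q h
  -- the diagonal
  have d0 : X.h 0 0 = Y.h 0 0 := by
    have h1 := X.conn
    have h2 := Y.conn
    unfold KRing.h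
    omega
  have sym : ∀ Z : KRing 5, Z.h 3 3 = Z.h 2 2 ∧ Z.h 4 4 = Z.h 1 1 ∧ Z.h 5 5 = Z.h 0 0 := by
    intro Z
    have h3 := h_dual Z 2 2 (by norm_num)
    have h4 := h_dual Z 1 1 (by norm_num)
    have h5 := h_dual Z 0 0 (by norm_num)
    norm_num at h3 h4 h5
    exact ⟨h3, h4, h5⟩
  have d1 : X.h 1 1 + X.h 2 2 = Y.h 1 1 + Y.h 2 2 := by
    have h1 := column_total X 0
    have h2 := column_total Y 0
    rw [← Φ.hodge 0 0, LinearEquiv.finrank_map_eq, h1] at h2
    norm_num at h2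
    obtain ⟨a3, a4, a5⟩ := sym X
    obtain ⟨b3, b4, b5⟩ := sym Y
    omega
  have d2 : X.h 1 1 = Y.h 1 1 ∧ X.h 2 2 = Y.h 2 2 := by
    unfold LibgoberWood5 at lX lY
    simp only [Finset.sum_range_succ, Finset.sum_range_zero] at lX lY
    push_cast at lX lY
    obtain ⟨a3, a4, a5⟩ := sym X
    obtain ⟨b3, b4, b5⟩ := sym Y
    rw [a3, a4, a5] at lX
    rw [b3, b4, b5] at lY
    rw [← off'' 0 1 (by norm_num), ← off'' 0 2 (by norm_num), ← off'' 0 3 (by norm_num),
      ← off'' 0 4 (by norm_num), ← off'' 0 5 (by norm_num),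
      ← off'' 1 0 (by norm_num), ← off'' 1 2 (by norm_num), ← off'' 1 3 (by norm_num),
      ← off'' 1 4 (by norm_num), ← off'' 1 5 (by norm_num),
      ← off'' 2 0 (by norm_num), ← off'' 2 1 (by norm_num), ← off'' 2 3 (by norm_num),
      ← off'' 2 4 (by norm_num), ← off'' 2 5 (by norm_num),
      ← off'' 3 0 (by norm_num), ← off'' 3 1 (by norm_num), ← off'' 3 2 (by norm_num),
      ← off'' 3 4 (by norm_num), ← off'' 3 5 (by norm_num),
      ← off'' 4 0 (by norm_num), ← off'' 4 1 (by norm_num), ← off'' 4 2 (by norm_num),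
      ← off'' 4 3 (by norm_num), ← off'' 4 5 (by norm_num),
      ← off'' 5 0 (by norm_num), ← off'' 5 1 (by norm_num), ← off'' 5 2 (by norm_num),
      ← off'' 5 3 (by norm_num), ← off'' 5 4 (by norm_num), ← d0] at lY
    constructor
    · omega
    · omega
  by_cases hpq : p = q
  · subst hpq
    by_cases h0 : p < 0 ∨ p < 0
    · rw [X.h_neg h0, Y.h_neg h0]
    · by_cases h6 : 5 < p
      · rw [h_top X (Or.inl h6), h_top Y (Or.inl h6)]
      · obtain ⟨a3, a4, a5⟩ := sym X
        obtain ⟨b3, b4, b5⟩ := sym Y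
        rcases (show p = 0 ∨ p = 1 ∨ p = 2 ∨ p = 3 ∨ p = 4 ∨ p = 5 by omega) with
          rfl | rfl | rfl | rfl | rfl | rfl
        · exact d0
        · exact d2.1
        · exact d2.2
        · rw [a3, b3]; exact d2.2
        · rw [a4, b4]; exact d2.1
        · rw [a5, b5]; exact d0
  · exact off'' p q hpq

end Pool.Agent.Q8.NK
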