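import Pool.Agent.Q8.NK.PL

/-!
# Polarised Lefschetz modules: inertia
-/

open Module

namespace Pool.Agent.Q8.NK

open Pool.Agent.W539.DI (semi_complex finrank_iSup_finset sp sm mem_sp mem_sm sum_sp sum_sm sum_pairs)

namespace PL

variable {c : ℕ} (X : PL c)

theorem indep' (a b : ℤ) : iSupIndep (fun k : ℤ => X.H (a + k, b + k)) :=
  X.indep.comp (f := fun k : ℤ => ((a + k, b + k) : ℤ × ℤ)) (fun k l hkl => by
    have := congrArg Prod.fst hkl
    simpa using this)

/-- The sum of the `H (a + k, b + k)` for `k` in `s`. -/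
def F (X : PL c) (a b : ℤ) (s : Finset ℤ) : Submodule ℂ X.V :=
  ⨆ k ∈ s, X.H (a + k, b + k)

theorem finrank_F (a b : ℤ) (s : Finset ℤ) :
    finrank ℂ (X.F a b s) = ∑ k ∈ s, X.h (a + k) (b + k) :=
  finrank_iSup_finset _ (X.indep' a b) s

theorem van_top {p q : ℤ} (h : (c : ℤ) < p ∨ (c : ℤ) < q) : X.H (p, q) = ⊥ := by
  by_cases hpq : (c : ℤ) ≤ p + q
  · obtain ⟨k, hk⟩ := Int.eq_ofNat_of_zero_le (show 0 ≤ p + q - c by omega)
    rw [eq_bot_iff]
    intro y hy
    have e : ((p, q) : ℤ × ℤ) = ((c : ℤ) - q + k, (c : ℤ) - p + k) := by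
      ext <;> simp <;> omega
    rw [e] at hy
    obtain ⟨x, hx, hxy⟩ := X.hl_surj (c - q) (c - p) k (by omega) y hy
    rw [X.van (c - q) (c - p) (by omega)] at hx
    rw [Submodule.mem_bot] at hx ⊢
    rw [← hxy, hx, map_zero]
  · exact X.van p q (by omega)

theorem h_symm {p q : ℤ} (k : ℕ) (h : p + q + k = c) : X.h p q = X.h (p + k) (q + k) := by
  let f : X.H (p, q) →ₗ[ℂ] X.H (p + k, q + k) :=
    ((X.L ^ k).comp (X.H (p, q)).subtype).codRestrict _ fun x => X.pow_mem k x.2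
  refine (LinearEquiv.ofBijective f ⟨?_, ?_⟩).finrank_eq
  · rw [injective_iff_map_eq_zero]
    intro x hx
    have := congrArg Subtype.val hx
    exact Subtype.ext (X.hl_inj p q k h x x.2 this)
  · intro y
    obtain ⟨x, hx, hxy⟩ := X.hl_surj p q k h y y.2
    exact ⟨⟨x, hx⟩, Subtype.ext hxy⟩

theorem h_van {p q : ℤ} (h : p < 0 ∨ q < 0 ∨ (c : ℤ) < p ∨ (c : ℤ) < q) : X.h p q = 0 := by
  unfold PL.h
  rcases h with h | h | h | h
  · rw [X.van p q (Or.inl h), finrank_bot]
  · rw [X.van p q (Or.inr h), finrank_bot]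
  · rw [X.van_top (Or.inl h), finrank_bot]
  · rw [X.van_top (Or.inr h), finrank_bot]

theorem β_F {a b : ℤ} (hab : a + b = c) (s t : Finset ℤ)
    (hst : ∀ k ∈ s, ∀ l ∈ t, 0 < k + l) {x y : X.V} (hx : x ∈ X.F a b s) (hy : y ∈ X.F a b t) :
    X.β x y = 0 := by
  classical
  unfold PL.F at hx hy
  induction hx using Submodule.iSup_induction' with
  | zero => exact X.β_zero y
  | add u v _ _ h1 h2 => rw [X.β_add, h1, h2, add_zero]
  | mem k u hu =>
    by_cases hk : k ∈ s
    · rw [iSup_pos hk] at hu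
      induction hy using Submodule.iSup_induction' with
      | zero => exact X.β_zero' u
      | add w v _ _ h1 h2 => rw [X.β_add', h1, h2, add_zero]
      | mem l v hv =>
        by_cases hl : l ∈ t
        · rw [iSup_pos hl] at hv
          exact X.orth a b k l hab (hst k hk l hl).ne' u hu v hv
        · rw [iSup_neg hl, Submodule.mem_bot] at hv
          rw [hv, X.β_zero']
    · rw [iSup_neg hk, Submodule.mem_bot] at hu
      rw [hu, X.β_zero]

theorem mem_F {a b : ℤ} {s : Finset ℤ} {k : ℤ} (hk : k ∈ s) {x : X.V}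
    (hx : x ∈ X.H (a + k, b + k)) : x ∈ X.F a b s :=
  (le_iSup₂ (f := fun k (_ : k ∈ s) => X.H (a + k, b + k)) k hk) hx

theorem β_nondeg {a b : ℤ} (hab : a + b = c) {x : X.V}
    (hx : x ∈ ⨆ k : ℤ, X.H (a + k, b + k))
    (h : ∀ y ∈ ⨆ k : ℤ, X.H (a + k, b + k), X.β x y = 0) : x = 0 := by
  classical
  rw [Submodule.mem_iSup_iff_exists_finsupp] at hx
  obtain ⟨f, hf, hfx⟩ := hx
  have key : ∀ k, f k = 0 := by
    intro k
    refine X.nondeg a b k hab (f k) (hf k) fun y hy => ?_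
    have e : ((a - k, b - k) : ℤ × ℤ) = (a + -k, b + -k) := by simp [sub_eq_add_neg]
    rw [e] at hy
    have h1 := h y (Submodule.mem_iSup_of_mem (-k) hy)
    have h2 : ∀ s : Finset ℤ, X.β (∑ i ∈ s, f i) y = ∑ i ∈ s, X.β (f i) y := by
      intro s
      induction s using Finset.induction_on with
      | empty => simp [X.β_zero]
      | insert a s ha ih => rw [Finset.sum_insert ha, Finset.sum_insert ha, X.β_add, ih]
    rw [← hfx, Finsupp.sum, h2] at h1
    by_cases hk : k ∈ f.support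
    · rw [Finset.sum_eq_single_of_mem k hk] at h1
      · exact h1
      · intro i _ hik
        exact X.orth a b i (-k) hab (by omega) _ (hf i) y hy
    · rw [Finsupp.notMem_support_iff.mp hk, X.β_zero]
  rw [← hfx, Finsupp.sum]
  exact Finset.sum_eq_zero fun k _ => key k

theorem F_all {a b : ℤ} (hab : a + b = c ∨ a + b + 1 = c) (s : Finset ℤ)
    (hs : ∀ k, k ∉ s → k < -(c : ℤ) ∨ (c : ℤ) < k) :
    (⨆ k : ℤ, X.H (a + k, b + k)) = X.F a b s := by
  apply le_antisymm
  · refine iSup_le fun k => ?_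
    by_cases hk : k ∈ s
    · exact le_iSup₂ (f := fun k (_ : k ∈ s) => X.H (a + k, b + k)) k hk
    · have : X.H (a + k, b + k) = ⊥ := by
        have hk' := hs k hk
        by_cases h1 : a + k < 0 ∨ b + k < 0
        · exact X.van _ _ h1
        · exact X.van_top (by omega)
      rw [this]
      exact bot_le
  · exact iSup₂_le fun k _ => le_iSup (fun k : ℤ => X.H (a + k, b + k)) k

/-- Half of the off-middle dimension. -/
noncomputable def f (a b : ℤ) : ℕ :=
  ∑ j ∈ Finset.range (2 * c), X.h (a - ((j : ℤ) + 1)) (b - ((j : ℤ) + 1))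

theorem f_eq {a b : ℤ} (hab : a + b = c) :
    finrank ℂ (X.F a b (sp (2 * c))) = X.f a b := by
  rw [X.finrank_F, sum_sp]
  unfold PL.f
  refine Finset.sum_congr rfl fun j _ => ?_
  have := X.h_symm (p := a - ((j : ℤ) + 1)) (q := b - ((j : ℤ) + 1)) (2 * (j + 1))
    (by push_cast; omega)
  rw [this]
  congr 1 <;> push_cast <;> ring

theorem total {a b : ℤ} (hab : a + b = c) :
    finrank ℂ (⨆ k : ℤ, X.H (a + k, b + k) : Submodule ℂ X.V) = 2 * X.f a b + X.h a b := by
  classical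
  rw [X.F_all (Or.inl hab) (sm (2 * c) ∪ ({0} ∪ sp (2 * c))), X.finrank_F, Finset.sum_union,
    Finset.sum_union, Finset.sum_singleton, ← X.finrank_F, ← X.finrank_F, X.f_eq hab,
    X.finrank_F, sum_sm, add_zero, add_zero]
  · have : ∑ j ∈ Finset.range (2 * c), X.h (a + -((j : ℤ) + 1)) (b + -((j : ℤ) + 1)) = X.f a b := by
      unfold PL.f
      refine Finset.sum_congr rfl fun j _ => ?_
      rw [sub_eq_add_neg, sub_eq_add_neg]
    rw [this]
    ring
  · rw [Finset.disjoint_left]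
    intro k hk hk2
    rw [Finset.mem_singleton] at hk
    rw [mem_sp] at hk2
    omega
  · rw [Finset.disjoint_left]
    intro k hk hk2
    rw [mem_sm] at hk
    rw [Finset.mem_union, Finset.mem_singleton, mem_sp] at hk2
    omega
  · intro k hk
    rw [Finset.mem_union, Finset.mem_union, Finset.mem_singleton, mem_sp, mem_sm] at hk
    push_cast at hk
    omega

/-- the column of the other parity -/
theorem total_odd {a b : ℤ} (hab : a + b + 1 = c) :
    finrank ℂ (⨆ k : ℤ, X.H (a + k, b + k) : Submodule ℂ X.V) = 2 * (X.f a b + X.h a b) := by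
  classical
  rw [X.F_all (Or.inr hab) (sm (2 * c) ∪ ({0} ∪ ({1} ∪ ((sp (2 * c)).image (fun k => k + 1))))),
    X.finrank_F, Finset.sum_union, Finset.sum_union, Finset.sum_union, Finset.sum_singleton,
    Finset.sum_singleton, sum_sm, Finset.sum_image, sum_sp, add_zero, add_zero]
  · have h1 : ∑ j ∈ Finset.range (2 * c), X.h (a + -((j : ℤ) + 1)) (b + -((j : ℤ) + 1)) =
        X.f a b := by
      unfold PL.f
      refine Finset.sum_congr rfl fun j _ => ?_
      rw [sub_eq_add_neg, sub_eq_add_neg]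
    have h2 : ∑ j ∈ Finset.range (2 * c), X.h (a + ((j : ℤ) + 1 + 1)) (b + ((j : ℤ) + 1 + 1)) =
        X.f a b := by
      unfold PL.f
      refine Finset.sum_congr rfl fun j _ => ?_
      have := X.h_symm (p := a - ((j : ℤ) + 1)) (q := b - ((j : ℤ) + 1)) (2 * (j + 1) + 1)
        (by push_cast; omega)
      rw [this]
      congr 1 <;> push_cast <;> ring
    have h3 : X.h (a + 1) (b + 1) = X.h a b := by
      have := X.h_symm (p := a) (q := b) 1 (by push_cast; omega)
      rw [this]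
      simp
    rw [h1, h2, h3]
    ring
  · intro x _ y _ hxy
    simpa using hxy
  · rw [Finset.disjoint_left]
    intro k hk hk2
    rw [Finset.mem_singleton] at hk
    rw [Finset.mem_image] at hk2
    obtain ⟨l, hl, rfl⟩ := hk2
    rw [mem_sp] at hl
    omega
  · rw [Finset.disjoint_left]
    intro k hk hk2
    rw [Finset.mem_singleton] at hk
    rw [Finset.mem_union, Finset.mem_singleton, Finset.mem_image] at hk2
    rcases hk2 with hk2 | ⟨l, hl, rfl⟩
    · omega
    · rw [mem_sp] at hl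
      omega
  · rw [Finset.disjoint_left]
    intro k hk hk2
    rw [mem_sm] at hk
    rw [Finset.mem_union, Finset.mem_union, Finset.mem_singleton, Finset.mem_singleton,
      Finset.mem_image] at hk2
    rcases hk2 with hk2 | hk2 | ⟨l, hl, rfl⟩
    · omega
    · omega
    · rw [mem_sp] at hl
      omega
  · intro k hk
    rw [Finset.mem_union, Finset.mem_union, Finset.mem_union, Finset.mem_singleton,
      Finset.mem_singleton, Finset.mem_image, mem_sm] at hk
    by_contra hcon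
    apply hk
    by_cases h1 : 2 ≤ k
    · refine Or.inr (Or.inr (Or.inr ⟨k - 1, ?_, by ring⟩))
      rw [mem_sp]
      push_cast
      omega
    · push_cast
      omega

theorem β_sup {a b : ℤ} (hab : a + b = c) {M : Submodule ℂ X.V}
    (hM : M ≤ X.H (a, b)) {x : X.V} (hx : x ∈ X.F a b (sp (2 * c)) ⊔ M) :
    ∃ m ∈ M, X.β x x = X.β m m := by
  rw [Submodule.mem_sup] at hx
  obtain ⟨u, hu, m, hm, rfl⟩ := hx
  refine ⟨m, hm, ?_⟩
  have hmF : m ∈ X.F a b {0} := by
    refine X.mem_F (Finset.mem_singleton_self _) ?_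
    rw [add_zero, add_zero]
    exact hM hm
  have h1 : X.β u u = 0 := X.β_F hab _ _ (fun k hk l hl => by
    rw [mem_sp] at hk hl; omega) hu hu
  have h2 : X.β u m = 0 := X.β_F hab _ _ (fun k hk l hl => by
    rw [mem_sp] at hk; rw [Finset.mem_singleton] at hl; omega) hu hmF
  rw [X.β_add, X.β_add', X.β_add', h1, h2, X.β_symm m u, h2]
  ring

theorem finrank_sup {a b : ℤ} (hab : a + b = c) {M : Submodule ℂ X.V}
    (hM : M ≤ X.H (a, b)) :
    finrank ℂ (X.F a b (sp (2 * c)) ⊔ M : Submodule ℂ X.V) = X.f a b + finrank ℂ M := by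
  have hd : Disjoint (X.H (a, b)) (X.F a b (sp (2 * c))) := by
    have := (X.indep' a b).disjoint_biSup (x := 0) (y := (sp (2 * c) : Set ℤ))
      (by
        intro h
        rw [Finset.mem_coe, mem_sp] at h
        omega)
    simp only [add_zero] at this
    exact this
  have hd2 : Disjoint (X.F a b (sp (2 * c))) M := (hd.mono_left hM).symm
  have h1 := Submodule.finrank_sup_add_finrank_inf_eq (X.F a b (sp (2 * c))) M
  rw [hd2.eq_bot, finrank_bot, add_zero, X.f_eq hab] at h1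
  exact h1

/-- An isometry of two polarised Lefschetz modules which preserves the columns `p - q = const` (but
neither the degree nor the Lefschetz operator). -/
structure Iso (X Y : PL c) where
  φ : X.V ≃ₗ[ℂ] Y.V
  col : ∀ p q : ℤ, Submodule.map (φ : X.V →ₗ[ℂ] Y.V) (⨆ k : ℤ, X.H (p + k, q + k)) =
    ⨆ k : ℤ, Y.H (p + k, q + k)
  isom : ∀ x y, Y.β (φ x) (φ y) = X.β x y

variable {X} {Y : PL c}

theorem Iso.total (Φ : Iso X Y) {a b : ℤ} (hab : a + b = c) :
    2 * X.f a b + X.h a b = 2 * Y.f a b + Y.h a b := by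
  rw [← X.total hab, ← Y.total hab, ← Φ.col a b]
  exact (LinearEquiv.finrank_map_eq Φ.φ _).symm

theorem Iso.total_odd (Φ : Iso X Y) {a b : ℤ} (hab : a + b + 1 = c) :
    X.f a b + X.h a b = Y.f a b + Y.h a b := by
  have h1 := X.total_odd hab
  have h2 := Y.total_odd hab
  rw [← Φ.col a b, LinearEquiv.finrank_map_eq, h1] at h2
  omega

/-- The basic inequality. -/
theorem Iso.ineq (Φ : Iso X Y) {a b : ℤ} (hab : a + b = c)
    (e : ℝ) (M : Submodule ℂ X.V) (N : Submodule ℂ Y.V) (hM : M ≤ X.H (a, b))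
    (hN : N ≤ Y.H (a, b)) (h1 : ∀ x ∈ M, 0 ≤ e * X.β x x)
    (h2 : ∀ x ∈ N, e * Y.β x x ≤ 0) (he : e ≠ 0) :
    X.f a b + finrank ℂ M + (Y.f a b + finrank ℂ N) ≤ 2 * Y.f a b + Y.h a b := by
  have hle : ∀ (Z : PL c) (M : Submodule ℂ Z.V), M ≤ Z.H (a, b) →
      Z.F a b (sp (2 * c)) ⊔ M ≤ ⨆ k : ℤ, Z.H (a + k, b + k) := by
    intro Z M hM
    refine sup_le ?_ ?_
    · exact iSup₂_le fun k _ => le_iSup (fun k : ℤ => Z.H (a + k, b + k)) k
    · refine le_trans hM ?_
      have := le_iSup (fun k : ℤ => Z.H (a + k, b + k)) 0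
      simpa using this
  have := semi_complex (⨆ k : ℤ, Y.H (a + k, b + k))
    (Submodule.map (Φ.φ : X.V →ₗ[ℂ] Y.V) (X.F a b (sp (2 * c)) ⊔ M))
    (Y.F a b (sp (2 * c)) ⊔ N)
    (by
      rw [← Φ.col a b]
      exact Submodule.map_mono (hle X M hM))
    (hle Y N hN) (fun x y => e * Y.β x y)
    (fun x y z => by
      show e * Y.β (x + y) z = e * Y.β x z + e * Y.β y z
      rw [Y.β_add]; ring)
    (fun r x z => by
      show e * Y.β ((r : ℂ) • x) z = r * (e * Y.β x z)
      rw [Y.β_smul]; ring)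
    (fun x y => by
      show e * Y.β x y = e * Y.β y x
      rw [Y.β_symm])
    (fun x hx h => Y.β_nondeg hab hx fun y hy => by
      have := h y hy
      exact (mul_eq_zero.mp this).resolve_left he)
    (by
      rintro _ ⟨x, hx, rfl⟩
      obtain ⟨m, hm, hxm⟩ := X.β_sup hab hM hx
      show 0 ≤ e * Y.β (Φ.φ x) (Φ.φ x)
      rw [Φ.isom, hxm]
      exact h1 m hm)
    (by
      intro x hx
      obtain ⟨m, hm, hxm⟩ := Y.β_sup hab hN hx
      show e * Y.β x x ≤ 0
      rw [hxm]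
      exact h2 m hm)
  rw [Y.total hab, LinearEquiv.finrank_map_eq, X.finrank_sup hab hM, Y.finrank_sup hab hN] at this
  exact this

theorem Iso.main (Φ : Iso X Y) {a b : ℤ} (hab : a + b = c) (r : ℕ) (hr : a < r) :
    (X.f a b : ℤ) + X.A r a b = Y.f a b + Y.A r a b := by
  obtain ⟨M₁, M₂, hM₁, hM₂, p1, p2, hs, hA⟩ :=
    X.definite r a b 0 (by decide) (by simpa using hab) hr
  obtain ⟨N₁, N₂, hN₁, hN₂, q1, q2, hs', hA'⟩ :=
    Y.definite r a b 0 (by decide) (by simpa using hab) hr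
  simp only [pow_zero, Module.End.one_apply] at p1 p2 q1 q2
  have he : sg a b ≠ 0 := by rcases sg_cases a b with h | h <;> rw [h] <;> norm_num
  have i1 := Φ.ineq hab (sg a b) M₁ N₂ hM₁ hN₂ p1 q2 he
  have i2 := Φ.ineq hab (-sg a b) M₂ N₁ hM₂ hN₁
    (fun x hx => by have := p2 x hx; linarith)
    (fun x hx => by have := q1 x hx; linarith) (neg_ne_zero.mpr he)
  have i3 := Φ.total hab
  omega

theorem A_step (X : PL c) (N : ℕ) : ∀ (p q : ℤ),
    X.A (2 * N + 1) p q = X.h p q + ∑ i ∈ Finset.range N,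
      ((X.h (p - 2 - 2 * i) (q - 2 - 2 * i) : ℤ) - X.h (p - 1 - 2 * i) (q - 1 - 2 * i)) := by
  induction N with
  | zero => intro p q; simp [PL.A]
  | succ N ih =>
    intro p q
    have e : X.A (2 * (N + 1) + 1) p q = X.h p q - (X.h (p - 1) (q - 1) -
        X.A (2 * N + 1) (p - 1 - 1) (q - 1 - 1)) := rfl
    rw [e, ih, Finset.sum_range_succ']
    have e2 : ∀ i : ℕ, ((X.h (p - 2 - 2 * ((i + 1 : ℕ) : ℤ)) (q - 2 - 2 * ((i + 1 : ℕ) : ℤ)) : ℤ) -
        X.h (p - 1 - 2 * ((i + 1 : ℕ) : ℤ)) (q - 1 - 2 * ((i + 1 : ℕ) : ℤ))) =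
        ((X.h (p - 1 - 1 - 2 - 2 * i) (q - 1 - 1 - 2 - 2 * i) : ℤ) -
          X.h (p - 1 - 1 - 1 - 2 * i) (q - 1 - 1 - 1 - 2 * i)) := by
      intro i
      congr 3 <;> push_cast <;> ring
    rw [Finset.sum_congr rfl fun i _ => e2 i]
    have e3 : X.h (p - 1 - 1) (q - 1 - 1) = X.h (p - 2 - 2 * ((0 : ℕ) : ℤ)) (q - 2 - 2 * ((0 : ℕ) : ℤ)) := by
      congr 1 <;> push_cast <;> ring
    have e4 : X.h (p - 1) (q - 1) = X.h (p - 1 - 2 * ((0 : ℕ) : ℤ)) (q - 1 - 2 * ((0 : ℕ) : ℤ)) := by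
      congr 1 <;> push_cast <;> ring
    rw [e3, e4]
    ring

theorem f_pairs (X : PL c) (a b : ℤ) :
    X.f a b = ∑ i ∈ Finset.range c, (X.h (a - 1 - 2 * i) (b - 1 - 2 * i) +
      X.h (a - 2 - 2 * i) (b - 2 - 2 * i)) := by
  unfold PL.f
  rw [sum_pairs]
  refine Finset.sum_congr rfl fun i _ => ?_
  congr 2 <;> push_cast <;> ring

theorem h_neg (X : PL c) {p q : ℤ} (h : p < 0 ∨ q < 0) : X.h p q = 0 := by
  unfold PL.h
  rw [X.van p q h, finrank_bot]

/-- The two sums. -/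
theorem Iso.hodge_sums (Φ : Iso X Y) (a b : ℤ) (hab : a + b = c) (_ha : 0 ≤ a) (hb : 0 ≤ b) :
    (∑ i ∈ Finset.range c, X.h (a - 1 - 2 * i) (b - 1 - 2 * i) =
      ∑ i ∈ Finset.range c, Y.h (a - 1 - 2 * i) (b - 1 - 2 * i)) ∧
    (X.h a b + 2 * ∑ i ∈ Finset.range c, X.h (a - 2 - 2 * i) (b - 2 - 2 * i) =
      Y.h a b + 2 * ∑ i ∈ Finset.range c, Y.h (a - 2 - 2 * i) (b - 2 - 2 * i)) := by
  have h1 := Φ.main hab (2 * c + 1) (by push_cast; omega)
  have h2 := Φ.total hab
  rw [X.A_step, Y.A_step, X.f_pairs, Y.f_pairs] at h1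
  rw [X.f_pairs, Y.f_pairs] at h2
  simp only [Finset.sum_add_distrib, Finset.sum_sub_distrib, Nat.cast_add, Nat.cast_sum] at h1 h2
  have c1 : ∀ Z : PL c, ((∑ i ∈ Finset.range c, Z.h (a - 1 - 2 * i) (b - 1 - 2 * i) : ℕ) : ℤ) =
      ∑ i ∈ Finset.range c, (Z.h (a - 1 - 2 * i) (b - 1 - 2 * i) : ℤ) := fun Z => by push_cast; rfl
  have c2 : ∀ Z : PL c, ((∑ i ∈ Finset.range c, Z.h (a - 2 - 2 * i) (b - 2 - 2 * i) : ℕ) : ℤ) =
      ∑ i ∈ Finset.range c, (Z.h (a - 2 - 2 * i) (b - 2 - 2 * i) : ℤ) := fun Z => by push_cast; rfl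
  rw [← c1 X, ← c1 Y, ← c2 X, ← c2 Y] at h1
  constructor
  · omega
  · omega


/-- If the dimensions of a column agree in the degrees `≤ c - 3` then they agree in all degrees. -/
theorem Iso.low (Φ : Iso X Y) (k : ℤ)
    (hX : ∀ p q : ℤ, p - q = k → p + q + 3 ≤ c → X.h p q = Y.h p q) (p q : ℤ)
    (hpq : p - q = k) : X.h p q = Y.h p q := by
  have key : ∀ p q : ℤ, p - q = k → p + q ≤ c → X.h p q = Y.h p q := by
    intro p q hpq hle
    by_cases h0 : p < 0 ∨ q < 0
    · rw [X.h_neg h0, Y.h_neg h0]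
    push Not at h0
    by_cases h3 : p + q + 3 ≤ c
    · exact hX p q hpq h3
    rcases (show p + q = c ∨ p + q + 1 = c ∨ p + q + 2 = c by omega) with h | h | h
    · have h1 := (Φ.hodge_sums p q h h0.1 h0.2).2
      have e : ∑ i ∈ Finset.range c, X.h (p - 2 - 2 * i) (q - 2 - 2 * i) =
          ∑ i ∈ Finset.range c, Y.h (p - 2 - 2 * i) (q - 2 - 2 * i) :=
        Finset.sum_congr rfl fun i _ => hX _ _ (by omega) (by omega)
      omega
    · have h1 := Φ.total_odd h
      have e : X.f p q = Y.f p q :=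
        Finset.sum_congr rfl fun i _ => hX _ _ (by omega) (by omega)
      omega
    · have h1 := (Φ.hodge_sums (p + 1) (q + 1) (by omega) (by omega) (by omega)).1
      obtain ⟨c', hc'⟩ : ∃ c', c = c' + 1 := ⟨c - 1, by omega⟩
      have e : ∀ Z : PL c,
          ∑ i ∈ Finset.range c, Z.h (p + 1 - 1 - 2 * i) (q + 1 - 1 - 2 * i) =
            Z.h p q + ∑ i ∈ Finset.range c', Z.h (p - 2 - 2 * i) (q - 2 - 2 * i) := by
        intro Z
        have e0 : ∀ g : ℕ → ℕ, ∑ i ∈ Finset.range c, g i =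
            g 0 + ∑ i ∈ Finset.range c', g (i + 1) := by
          intro g
          rw [hc', Finset.sum_range_succ', add_comm]
        rw [e0]
        congr 1
        · congr 1 <;> push_cast <;> ring
        · refine Finset.sum_congr rfl fun i _ => ?_
          congr 1 <;> push_cast <;> ring
      have e2 : ∑ i ∈ Finset.range c', X.h (p - 2 - 2 * i) (q - 2 - 2 * i) =
          ∑ i ∈ Finset.range c', Y.h (p - 2 - 2 * i) (q - 2 - 2 * i) :=
        Finset.sum_congr rfl fun i _ => hX _ _ (by omega) (by omega)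
      rw [e X, e Y, e2] at h1
      omega
  by_cases hle : p + q ≤ c
  · exact key p q hpq hle
  · obtain ⟨l, hl⟩ := Int.eq_ofNat_of_zero_le (show 0 ≤ p + q - c by omega)
    have e1 := X.h_symm (p := p - l) (q := q - l) l (by omega)
    have e2 := Y.h_symm (p := p - l) (q := q - l) l (by omega)
    rw [sub_add_cancel, sub_add_cancel] at e1 e2
    rw [← e1, ← e2]
    exact key (p - l) (q - l) (by omega) (by omega)

end PL

end Pool.Agent.Q8.NK
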