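import Pool.Agent.W539.DI.Main

/-!
# Polarised Lefschetz modules

A polarised Lefschetz module of weight `c` is a complex vector space with a bigrading, an operator
`L` of type `(1, 1)` and a real form `β`, with the properties of the cohomology of a compact Kähler
manifold of dimension `c`, its Lefschetz operator and the form `2 Re ∫ x ∧ bar y` (up to signs): hard
Lefschetz and the Hodge-Riemann relations.
-/

open Module

namespace Pool.Agent.Q8.NK

open Pool.Agent.W539.DI (semi_complex finrank_map_of_inj finrank_iSup_finset)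

/-- the sign of the Hodge-Riemann relations -/
noncomputable def sg (p q : ℤ) : ℝ := (-1) ^ (q + (p + q) * (p + q - 1) / 2)

theorem sg_step (p q : ℤ) : sg (p - 1) (q - 1) = sg p q := by
  unfold sg
  obtain ⟨t, ht⟩ : ∃ t : ℤ, (p + q) * (p + q - 1) = 2 * t := by
    obtain ⟨t, ht⟩ := Int.even_mul_pred_self (p + q)
    exact ⟨t, by rw [ht]; ring⟩
  have h2 : (p - 1 + (q - 1)) * (p - 1 + (q - 1) - 1) = 2 * (t - (2 * (p + q) - 3)) := by
    have : (p - 1 + (q - 1)) * (p - 1 + (q - 1) - 1) =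
      (p + q) * (p + q - 1) - 2 * (2 * (p + q) - 3) := by ring
    rw [this, ht]; ring
  rw [ht, h2, Int.mul_ediv_cancel_left _ (by norm_num), Int.mul_ediv_cancel_left _ (by norm_num)]
  have e : (q - 1 + (t - (2 * (p + q) - 3)) : ℤ) = (q + t) + 2 * (1 - (p + q)) := by ring
  rw [e, zpow_add₀ (by norm_num), zpow_mul]
  norm_num

theorem sg_cases (p q : ℤ) : sg p q = 1 ∨ sg p q = -1 := by
  unfold sg
  rcases Int.even_or_odd (q + (p + q) * (p + q - 1) / 2) with h | h
  · exact Or.inl (Even.neg_one_zpow h)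
  · exact Or.inr (Odd.neg_one_zpow h)

/-- polarised Lefschetz modules of weight `c` -/
structure PL (c : ℕ) where
  V : Type
  [grp : AddCommGroup V]
  [mod : Module ℂ V]
  [fin : FiniteDimensional ℂ V]
  H : ℤ × ℤ → Submodule ℂ V
  indep : iSupIndep H
  van : ∀ p q : ℤ, (p < 0 ∨ q < 0) → H (p, q) = ⊥
  L : V →ₗ[ℂ] V
  L_mem : ∀ (p q : ℤ) (x : V), x ∈ H (p, q) → L x ∈ H (p + 1, q + 1)
  β : V → V → ℝ
  β_add : ∀ x y z, β (x + y) z = β x z + β y z
  β_smul : ∀ (r : ℝ) x z, β ((r : ℂ) • x) z = r * β x z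
  β_symm : ∀ x y, β x y = β y x
  skew : ∀ x y, β (L x) y = - β x (L y)
  orth : ∀ (a b i i' : ℤ), a + b = c → i + i' ≠ 0 →
    ∀ x ∈ H (a + i, b + i), ∀ y ∈ H (a + i', b + i'), β x y = 0
  nondeg : ∀ (a b i : ℤ), a + b = c → ∀ x ∈ H (a + i, b + i),
    (∀ y ∈ H (a - i, b - i), β x y = 0) → x = 0
  hl_inj : ∀ (p q : ℤ) (l : ℕ), p + q + l = c → ∀ x ∈ H (p, q), (L ^ l) x = 0 → x = 0
  hl_surj : ∀ (p q : ℤ) (l : ℕ), p + q + l = c → ∀ y ∈ H (p + l, q + l),
    ∃ x ∈ H (p, q), (L ^ l) x = y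
  hr : ∀ (p q : ℤ) (l : ℕ), Even l → p + q + l = c → ∀ x ∈ H (p, q), x ≠ 0 →
    (L ^ (l + 1)) x = 0 → 0 < sg p q * β x ((L ^ l) x)

attribute [instance] PL.grp PL.mod PL.fin

namespace PL

variable {c : ℕ} (X : PL c)

/-- the dimension of the part of type `(p, q)` -/
noncomputable def h (p q : ℤ) : ℕ := finrank ℂ (X.H (p, q))

theorem pow_mem (l : ℕ) {p q : ℤ} {x : X.V} (hx : x ∈ X.H (p, q)) :
    (X.L ^ l) x ∈ X.H (p + l, q + l) := by
  induction l with
  | zero => simpa using hx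
  | succ l ih =>
    rw [pow_succ', Module.End.mul_apply]
    have := X.L_mem _ _ _ ih
    have e : ((p + (l : ℤ) + 1, q + (l : ℤ) + 1) : ℤ × ℤ) =
        (p + ((l + 1 : ℕ) : ℤ), q + ((l + 1 : ℕ) : ℤ)) := by
      ext <;> push_cast <;> ring
    rwa [e] at this

theorem β_zero (y : X.V) : X.β 0 y = 0 := by
  have := X.β_smul 0 0 y
  simpa using this

theorem β_zero' (y : X.V) : X.β y 0 = 0 := by rw [X.β_symm, X.β_zero]

theorem β_add' (x y z : X.V) : X.β x (y + z) = X.β x y + X.β x z := by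
  rw [X.β_symm, X.β_add, X.β_symm y, X.β_symm z]

theorem skew_pow (l : ℕ) (x y : X.V) : X.β ((X.L ^ l) x) y = (-1) ^ l * X.β x ((X.L ^ l) y) := by
  induction l generalizing x y with
  | zero => simp
  | succ l ih =>
    rw [pow_succ', Module.End.mul_apply, X.skew, ih, pow_succ, ← Module.End.mul_apply,
      ← pow_succ, ← pow_succ' X.L l]
    ring

/-- Alternating sums of Hodge numbers. -/
noncomputable def A (X : PL c) : ℕ → ℤ → ℤ → ℤ
  | 0, _, _ => 0
  | r + 1, p, q => X.h p q - X.A r (p - 1) (q - 1)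

/-- Definite decomposition of the Hodge-Riemann form, with the dimension of the positive part. -/
theorem definite : ∀ (r : ℕ) (p q : ℤ) (l : ℕ), Even l → p + q + l = c → p < r →
    ∃ M₁ M₂ : Submodule ℂ X.V, M₁ ≤ X.H (p, q) ∧ M₂ ≤ X.H (p, q) ∧
      (∀ x ∈ M₁, 0 ≤ sg p q * X.β x ((X.L ^ l) x)) ∧
      (∀ x ∈ M₂, sg p q * X.β x ((X.L ^ l) x) ≤ 0) ∧
      finrank ℂ M₁ + finrank ℂ M₂ = X.h p q ∧ (finrank ℂ M₁ : ℤ) = X.A r p q := by
  intro r
  induction r with
  | zero =>
    intro p q l _ _ hp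
    have hb : X.H (p, q) = ⊥ := X.van p q (Or.inl (by simpa using hp))
    refine ⟨⊥, ⊥, bot_le, bot_le, ?_, ?_, ?_, ?_⟩
    · intro x hx
      rw [(Submodule.mem_bot ℂ).mp hx, X.β_zero, mul_zero]
    · intro x hx
      rw [(Submodule.mem_bot ℂ).mp hx, X.β_zero, mul_zero]
    · unfold h
      rw [hb]
      simp
    · simp [A]
  | succ r ih =>
    intro p q k hev hk hp
    obtain ⟨N₁, N₂, hN₁, hN₂, pos, neg, hsum, hA⟩ :=
      ih (p - 1) (q - 1) (k + 2) (by exact hev.add (by decide)) (by push_cast; omega)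
        (by push_cast at hp; omega)
    have hk2 : (p - 1 : ℤ) + (q - 1) + ((k + 2 : ℕ) : ℤ) = c := by push_cast; omega
    have hinj : ∀ x ∈ X.H (p - 1, q - 1), X.L x = 0 → x = 0 := by
      intro x hx h0
      refine X.hl_inj (p - 1) (q - 1) (k + 2) hk2 x hx ?_
      rw [show k + 2 = (k + 1) + 1 from rfl, pow_succ, Module.End.mul_apply, h0, map_zero]
    have hωmem : ∀ x ∈ X.H (p - 1, q - 1), X.L x ∈ X.H (p, q) := by
      intro x hx
      have := X.L_mem _ _ _ hx
      have e : ((p - 1 + 1, q - 1 + 1) : ℤ × ℤ) = (p, q) := by ext <;> simp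
      rwa [e] at this
    let P : Submodule ℂ X.V := X.H (p, q) ⊓ LinearMap.ker (X.L ^ (k + 1))
    have hP : ∀ x ∈ P, x ∈ X.H (p, q) ∧ (X.L ^ (k + 1)) x = 0 := fun x hx => ⟨hx.1, hx.2⟩
    let M : Submodule ℂ X.V → Submodule ℂ X.V := fun N => Submodule.map X.L N
    have hL : ∀ N, N ≤ X.H (p - 1, q - 1) → finrank ℂ (M N) = finrank ℂ N := fun N hN =>
      finrank_map_of_inj _ _ fun x hx h0 => hinj x (hN hx) h0
    have hLle : ∀ N, N ≤ X.H (p - 1, q - 1) → M N ≤ X.H (p, q) := by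
      rintro N hN _ ⟨x, hx, rfl⟩
      exact hωmem x (hN hx)
    have hdis : ∀ N, N ≤ X.H (p - 1, q - 1) → P ⊓ M N = ⊥ := by
      intro N hN
      rw [eq_bot_iff]
      rintro y ⟨hy1, x, hx, rfl⟩
      have h1 := (hP _ hy1).2
      have h2 : (X.L ^ (k + 2)) x = 0 := by
        have e : (X.L ^ (k + 2)) x = (X.L ^ (k + 1)) (X.L x) := by
          rw [show k + 2 = (k + 1) + 1 from rfl, pow_succ, Module.End.mul_apply]
        rw [e]
        exact h1
      have := X.hl_inj (p - 1) (q - 1) (k + 2) hk2 x (hN hx) h2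
      rw [this]
      simp
    have hall : P ⊔ M (X.H (p - 1, q - 1)) = X.H (p, q) := by
      apply le_antisymm
      · exact sup_le inf_le_left (hLle _ le_rfl)
      · intro x hx
        have hmem : (X.L ^ (k + 1)) x ∈
            X.H (p - 1 + ((k + 2 : ℕ) : ℤ), q - 1 + ((k + 2 : ℕ) : ℤ)) := by
          have := X.pow_mem (k + 1) hx
          have e : ((p + ((k + 1 : ℕ) : ℤ), q + ((k + 1 : ℕ) : ℤ)) : ℤ × ℤ) =
              (p - 1 + ((k + 2 : ℕ) : ℤ), q - 1 + ((k + 2 : ℕ) : ℤ)) := by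
            ext <;> push_cast <;> ring
          rwa [e] at this
        obtain ⟨y, hy, hxy⟩ := X.hl_surj (p - 1) (q - 1) (k + 2) hk2 _ hmem
        rw [Submodule.mem_sup]
        refine ⟨x - X.L y, ⟨?_, ?_⟩, X.L y, ⟨y, hy, rfl⟩, by abel⟩
        · exact Submodule.sub_mem _ hx (hωmem y hy)
        · show (X.L ^ (k + 1)) (x - X.L y) = 0
          rw [map_sub, ← hxy]
          rw [show k + 2 = (k + 1) + 1 from rfl, pow_succ, Module.End.mul_apply, sub_self]
    have hdimP : finrank ℂ P + X.h (p - 1) (q - 1) = X.h p q := by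
      have h1 := Submodule.finrank_sup_add_finrank_inf_eq P (M (X.H (p - 1, q - 1)))
      rw [hall, hdis _ le_rfl, finrank_bot, add_zero, hL _ le_rfl] at h1
      exact h1.symm
    have hdimM : finrank ℂ (P ⊔ M N₂ : Submodule ℂ X.V) = finrank ℂ P + finrank ℂ N₂ := by
      have h1 := Submodule.finrank_sup_add_finrank_inf_eq P (M N₂)
      rw [hdis _ hN₂, finrank_bot, add_zero, hL _ hN₂] at h1
      exact h1
    have hdimL : finrank ℂ (M N₁) = finrank ℂ N₁ := hL _ hN₁
    have hmul : ∀ v : X.V, sg p q * X.β (X.L v) ((X.L ^ k) (X.L v)) =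
        - (sg (p - 1) (q - 1) * X.β v ((X.L ^ (k + 2)) v)) := by
      intro v
      rw [X.skew, sg_step, ← Module.End.mul_apply, ← Module.End.mul_apply]
      rw [show X.L * X.L ^ k * X.L = X.L ^ (k + 2) by
        rw [← pow_succ', ← pow_succ]]
      ring
    refine ⟨P ⊔ M N₂, M N₁, sup_le inf_le_left (hLle _ hN₂), hLle _ hN₁, ?_, ?_, ?_, ?_⟩
    · intro x hx
      rw [Submodule.mem_sup] at hx
      obtain ⟨u, hu, _, ⟨v, hv, rfl⟩, rfl⟩ := hx
      have hu2 := hP u hu
      have e1 : X.β u ((X.L ^ k) (X.L v)) = 0 := by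
        rw [← Module.End.mul_apply, ← pow_succ]
        have := X.skew_pow (k + 1) u v
        rw [hu2.2, X.β_zero] at this
        rcases mul_eq_zero.mp this.symm with h | h
        · exact absurd h (pow_ne_zero _ (by norm_num))
        · exact h
      have e2 : X.β (X.L v) ((X.L ^ k) u) = 0 := by
        rw [X.skew, ← Module.End.mul_apply, ← pow_succ', hu2.2, X.β_zero', neg_zero]
      have e : sg p q * X.β (u + X.L v) ((X.L ^ k) (u + X.L v)) =
          sg p q * X.β u ((X.L ^ k) u) -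
            sg (p - 1) (q - 1) * X.β v ((X.L ^ (k + 2)) v) := by
        rw [map_add, X.β_add, X.β_add', X.β_add', e1, e2]
        have := hmul v
        linear_combination this
      rw [e]
      have h1 : 0 ≤ sg p q * X.β u ((X.L ^ k) u) := by
        by_cases hu0 : u = 0
        · rw [hu0, X.β_zero, mul_zero]
        · exact (X.hr p q k hev hk u hu2.1 hu0 hu2.2).le
      have h2 := neg v hv
      linarith
    · rintro x ⟨v, hv, rfl⟩
      rw [hmul]
      have := pos v hv
      linarith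
    · rw [hdimM, hdimL]
      omega
    · have hA' : X.A (r + 1) p q = X.h p q - X.A r (p - 1) (q - 1) := rfl
      rw [hdimM, hA', ← hA]
      push_cast
      omega

end PL

end Pool.Agent.Q8.NK
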