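import Pool.Agent.Q8.NK.Bf

/-!
# The primitive parts as polarised Lefschetz modules
-/

open scoped ComplexConjugate
open Module

namespace Pool.Agent.Q8.NK

open Pool.Agent.W539.DI

variable {n : ℕ} {X : KRing n} {κ : X.R}

/-- the primitive part `P_j` -/
abbrev Pv (X : KRing n) (κ : X.R) (j : ℕ) : Type := U X κ j ⧸ Rr X κ j

/-- the class in `P_j` -/
def mk (j : ℕ) : U X κ j →ₗ[ℂ] Pv X κ j := (Rr X κ j).mkQ

theorem mk_zero {j : ℕ} {x : U X κ j} : mk j x = 0 ↔ Neg X κ j x := by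
  unfold mk
  rw [Submodule.mkQ_apply, Submodule.Quotient.mk_eq_zero, mem_Rr]

theorem mk_eq {j : ℕ} {x y : U X κ j} : mk j x = mk j y ↔ Neg X κ j ((x : X.R) - y) := by
  rw [← sub_eq_zero, ← map_sub, mk_zero, Submodule.coe_sub]

/-- the classes of type `i` in `P_j` -/
def PH (X : KRing n) (κ : X.R) (j : ℕ) (i : ℤ × ℤ) : Submodule ℂ (Pv X κ j) :=
  Submodule.map (Rr X κ j).mkQ (Submodule.comap (U X κ j).subtype (X.H i))

theorem mem_PH {j : ℕ} {i : ℤ × ℤ} {v : Pv X κ j} :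
    v ∈ PH X κ j i ↔ ∃ x : U X κ j, (x : X.R) ∈ X.H i ∧ mk j x = v := by
  unfold PH
  constructor
  · rintro ⟨x, hx, rfl⟩
    exact ⟨x, hx, rfl⟩
  · rintro ⟨x, hx, rfl⟩
    exact ⟨x, hx, rfl⟩

/-- a linear operator on the cohomology which preserves `ker κ^(j+1)` and `Neg` -/
def desc (j : ℕ) (T : X.R →ₗ[ℂ] X.R) (h1 : ∀ x ∈ U X κ j, T x ∈ U X κ j)
    (h2 : ∀ x, Neg X κ j x → Neg X κ j (T x)) : Pv X κ j →ₗ[ℂ] Pv X κ j :=
  (Rr X κ j).mapQ (Rr X κ j) (T.restrict h1) fun x hx => h2 x hx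

theorem desc_mk (j : ℕ) (T : X.R →ₗ[ℂ] X.R) (h1 : ∀ x ∈ U X κ j, T x ∈ U X κ j)
    (h2 : ∀ x, Neg X κ j x → Neg X κ j (T x)) (x : U X κ j) :
    desc j T h1 h2 (mk j x) = mk j ⟨T x, h1 x x.2⟩ := rfl

/-- the projections on `P_j` -/
noncomputable def Ppr (hκ : κ ∈ X.H (1, 1)) (j : ℕ) (i : ℤ × ℤ) : Pv X κ j →ₗ[ℂ] Pv X κ j :=
  desc j (pr X i) (fun _ hx => U_pr hκ i hx) (fun _ hx => hx.pr hκ i)

theorem Ppr_same (hκ : κ ∈ X.H (1, 1)) (j : ℕ) (i : ℤ × ℤ) {v : Pv X κ j}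
    (hv : v ∈ PH X κ j i) : Ppr hκ j i v = v := by
  obtain ⟨x, hx, rfl⟩ := mem_PH.mp hv
  unfold Ppr
  rw [desc_mk]
  congr 1
  exact Subtype.ext (pr_same X hx)

theorem Ppr_ne (hκ : κ ∈ X.H (1, 1)) (j : ℕ) {i i' : ℤ × ℤ} (hi : i' ≠ i) {v : Pv X κ j}
    (hv : v ∈ PH X κ j i') : Ppr hκ j i v = 0 := by
  obtain ⟨x, hx, rfl⟩ := mem_PH.mp hv
  unfold Ppr
  rw [desc_mk]
  have : (⟨pr X i x, U_pr hκ i x.2⟩ : U X κ j) = 0 := Subtype.ext (pr_ne X hx hi)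
  rw [this, map_zero]

theorem PH_indep (hκ : κ ∈ X.H (1, 1)) (j : ℕ) : iSupIndep (PH X κ j) :=
  indep_of_proj _ (Ppr hκ j) (fun i _ hx => Ppr_same hκ j i hx)
    (fun _ _ hi _ hx => Ppr_ne hκ j hi hx)

/-- the Lefschetz operator on `P_j` -/
noncomputable def PL' (hκ : κ ∈ X.H (1, 1)) (j : ℕ) : Pv X κ j →ₗ[ℂ] Pv X κ j :=
  desc j (LinearMap.mulLeft ℂ X.ω) (fun _ hx => U_mul hκ hx) (fun _ hx => hx.mul hκ)

theorem U_pow_mul (hκ : κ ∈ X.H (1, 1)) {j : ℕ} (l : ℕ) {x : X.R}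
    (h : x ∈ U X κ j) : X.ω ^ l * x ∈ U X κ j := by
  rw [mem_U] at h ⊢
  rw [pow_central' hκ, mul_assoc, ← pow_central' hκ, h, mul_zero]

theorem PL'_pow (hκ : κ ∈ X.H (1, 1)) (j l : ℕ) (x : U X κ j) :
    ((PL' hκ j) ^ l) (mk j x) = mk j ⟨X.ω ^ l * (x : X.R), U_pow_mul hκ l x.2⟩ := by
  induction l with
  | zero =>
    rw [pow_zero, Module.End.one_apply]
    congr 1
    exact Subtype.ext (by simp)
  | succ l ih =>
    rw [pow_succ', Module.End.mul_apply, ih]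
    unfold PL'
    rw [desc_mk]
    congr 1
    refine Subtype.ext ?_
    show X.ω * (X.ω ^ l * (x : X.R)) = X.ω ^ (l + 1) * (x : X.R)
    rw [pow_succ', mul_assoc]

/-- a representative -/
noncomputable def rep (j : ℕ) (v : Pv X κ j) : U X κ j :=
  Function.surjInv (Rr X κ j).mkQ_surjective v

theorem mk_rep (j : ℕ) (v : Pv X κ j) : mk j (rep j v) = v :=
  Function.surjInv_eq (Rr X κ j).mkQ_surjective v

/-- the form on `P_j` -/
noncomputable def Pβ (j : ℕ) (v w : Pv X κ j) : ℝ := bf X κ j (rep j v) (rep j w)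

theorem Pβ_mk (h : IsNef X κ) (j : ℕ) (x y : U X κ j) :
    Pβ j (mk j x) (mk j y) = bf X κ j x y := by
  have key : ∀ x x' y : U X κ j, mk j x = mk j x' → bf X κ j x y = bf X κ j x' y := by
    intro x x' y hx
    have h1 := bf_neg h.mem h.real (mk_eq.mp hx) y.2
    have h2 := bf_add (κ := κ) j ((x : X.R) - x') x' y
    rw [sub_add_cancel, h1, zero_add] at h2
    exact h2
  unfold Pβ
  rw [key _ _ _ (mk_rep j (mk j x)), bf_symm, key _ _ _ (mk_rep j (mk j y)), bf_symm]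

theorem mk_surj (j : ℕ) (v : Pv X κ j) : ∃ x : U X κ j, mk j x = v := ⟨rep j v, mk_rep j v⟩

/-- The primitive part `P_j` of a nef class is a polarised Lefschetz module of weight `n - j`. -/
noncomputable def prim (h : IsNef X κ) (c j : ℕ) (hc : c + j = n) : PL c where
  V := Pv X κ j
  H := PH X κ j
  indep := PH_indep h.mem j
  van := by
    intro p q hpq
    rw [eq_bot_iff]
    intro v hv
    obtain ⟨x, hx, rfl⟩ := mem_PH.mp hv
    rw [X.van p q hpq, Submodule.mem_bot] at hx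
    have : x = 0 := Subtype.ext hx
    rw [this, map_zero]
    exact Submodule.zero_mem _
  L := PL' h.mem j
  L_mem := by
    intro p q v hv
    obtain ⟨x, hx, rfl⟩ := mem_PH.mp hv
    refine mem_PH.mpr ⟨_, ?_, rfl⟩
    have := X.mul_mem X.ω_mem hx
    rwa [add_comm 1 p, add_comm 1 q] at this
  β := Pβ j
  β_add := by
    intro u v w
    obtain ⟨x, rfl⟩ := mk_surj j u
    obtain ⟨y, rfl⟩ := mk_surj j v
    obtain ⟨z, rfl⟩ := mk_surj j w
    rw [← map_add, Pβ_mk h, Pβ_mk h, Pβ_mk h, Submodule.coe_add, bf_add]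
  β_smul := by
    intro r u v
    obtain ⟨x, rfl⟩ := mk_surj j u
    obtain ⟨y, rfl⟩ := mk_surj j v
    rw [← map_smul, Pβ_mk h, Pβ_mk h, Submodule.coe_smul, bf_smul]
  β_symm := by
    intro u v
    unfold Pβ
    rw [bf_symm]
  skew := by
    intro u v
    obtain ⟨x, rfl⟩ := mk_surj j u
    obtain ⟨y, rfl⟩ := mk_surj j v
    unfold PL'
    rw [desc_mk, desc_mk, Pβ_mk h, Pβ_mk h]
    exact bf_skew h.mem X.ω_mem X.ω_bar j x y
  orth := by
    intro a b i i' hab hi u hu v hv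
    obtain ⟨x, hx, rfl⟩ := mem_PH.mp hu
    obtain ⟨y, hy, rfl⟩ := mem_PH.mp hv
    rw [Pβ_mk h]
    exact bf_type h.mem j hx hy fun h' => hi (by omega)
  nondeg := by
    intro a b i hab v hv hort
    obtain ⟨x, hx, rfl⟩ := mem_PH.mp hv
    rw [mk_zero]
    refine bf_nondeg h.mem h.real hc hab hx x.2 fun y hy hyU => ?_
    have := hort (mk j ⟨y, hyU⟩) (mem_PH.mpr ⟨⟨y, hyU⟩, hy, rfl⟩)
    rwa [Pβ_mk h] at this
  hl_inj := by
    intro p q l hpq v hv h0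
    obtain ⟨x, hx, rfl⟩ := mem_PH.mp hv
    rw [PL'_pow, mk_zero] at h0
    rw [mk_zero]
    exact h.hl_inj j l p q (by omega) x hx x.2 h0
  hl_surj := by
    intro p q l hpq v hv
    obtain ⟨y, hy, rfl⟩ := mem_PH.mp hv
    obtain ⟨x, hx, hx0, hn⟩ := h.hl_surj j l p q (by omega) y hy y.2
    refine ⟨mk j ⟨x, hx0⟩, mem_PH.mpr ⟨⟨x, hx0⟩, hx, rfl⟩, ?_⟩
    rw [PL'_pow]
    exact (mk_eq.mpr hn).symm
  hr := by
    intro p q l hl hpq v hv h0 h1
    obtain ⟨x, hx, rfl⟩ := mem_PH.mp hv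
    rw [Ne, mk_zero] at h0
    rw [PL'_pow, mk_zero] at h1
    rw [PL'_pow, Pβ_mk h]
    exact bf_hr h hl (by omega) hx x.2 h1 h0

end Pool.Agent.Q8.NK
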