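import Pool.Agent.Q8.NK.Defs
import Pool.Agent.Q8.NK.Inert

/-!
# The primitive parts with respect to a nef class are polarised Lefschetz modules
-/

open scoped ComplexConjugate
open Module

namespace Pool.Agent.Q8.NK

open Pool.Agent.W539.DI

theorem indep_of_proj {ι V : Type*} [AddCommGroup V] [Module ℂ V] (H : ι → Submodule ℂ V)
    (P : ι → V →ₗ[ℂ] V) (h1 : ∀ i, ∀ x ∈ H i, P i x = x)
    (h2 : ∀ i j, j ≠ i → ∀ x ∈ H j, P i x = 0) : iSupIndep H := by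
  intro i
  rw [Submodule.disjoint_def]
  intro x hx hx'
  have h3 : (⨆ j, ⨆ (_ : j ≠ i), H j) ≤ LinearMap.ker (P i) :=
    iSup₂_le fun j hj y hy => h2 i j hj y hy
  have h4 : P i x = 0 := h3 hx'
  rw [h1 i x hx] at h4
  exact h4

variable {n : ℕ} (X : KRing n)

/-- the projection onto the classes of type `i` -/
noncomputable def pr (i : ℤ × ℤ) : X.R →ₗ[ℂ] X.R :=
  (X.H i).subtype ∘ₗ DirectSum.component ℂ (ℤ × ℤ) (fun i => X.H i) i ∘ₗ
    (DirectSum.decomposeLinearEquiv X.H).toLinearMap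

theorem pr_eq (i : ℤ × ℤ) (x : X.R) : pr X i x = (DirectSum.decompose X.H x i : X.R) := rfl

theorem pr_mem (i : ℤ × ℤ) (x : X.R) : pr X i x ∈ X.H i := by
  rw [pr_eq]
  exact SetLike.coe_mem _

theorem pr_same {i : ℤ × ℤ} {x : X.R} (hx : x ∈ X.H i) : pr X i x = x := by
  rw [pr_eq]
  exact DirectSum.decompose_of_mem_same _ hx

theorem pr_ne {i j : ℤ × ℤ} {x : X.R} (hx : x ∈ X.H j) (h : j ≠ i) : pr X i x = 0 := by
  rw [pr_eq]
  exact DirectSum.decompose_of_mem_ne _ hx h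

variable {X}

theorem pr_mul {κ : X.R} (hκ : κ ∈ X.H (1, 1)) (m : ℕ) (p q : ℤ) (x : X.R) :
    pr X (p + m, q + m) (κ ^ m * x) = κ ^ m * pr X (p, q) x := by
  refine X.ind (P := fun x => pr X (p + m, q + m) (κ ^ m * x) = κ ^ m * pr X (p, q) x) ?_ ?_ ?_ x
  · simp
  · intro x y hx hy
    rw [mul_add, map_add, map_add, mul_add, hx, hy]
  · intro p' q' x hx
    have h1 := X.pow_mul_mem hκ m hx
    by_cases h : ((p', q') : ℤ × ℤ) = (p, q)
    · rw [Prod.mk.injEq] at h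
      obtain ⟨rfl, rfl⟩ := h
      rw [pr_same X h1, pr_same X hx]
    · rw [pr_ne X hx h, mul_zero]
      refine pr_ne X h1 fun h' => h ?_
      rw [Prod.mk.injEq] at h' ⊢
      omega

theorem dual_mul {κ : X.R} (hκ : κ ∈ X.H (1, 1)) (x : X.R) : X.dual (κ * x) = - (κ * X.dual x) := by
  refine X.ind (P := fun x => X.dual (κ * x) = - (κ * X.dual x)) ?_ ?_ ?_ x
  · simp
  · intro x y hx hy
    rw [mul_add, map_add, map_add, mul_add, hx, hy, neg_add]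
  · intro p q x hx
    rw [X.dual_of hx, X.dual_of (X.mul_mem hκ hx)]
    have e : (1 + p + (1 + q) : ℤ) = (p + q) + 2 := by ring
    rw [e, zpow_add₀ Complex.I_ne_zero, mul_smul_comm,
      show (2 : ℤ) = ((2 : ℕ) : ℤ) from rfl, zpow_natCast Complex.I 2, Complex.I_sq]
    simp

theorem dual_pow {κ : X.R} (hκ : κ ∈ X.H (1, 1)) (m : ℕ) (x : X.R) :
    X.dual (κ ^ m * x) = (-1 : ℂ) ^ m • (κ ^ m * X.dual x) := by
  induction m with
  | zero => simp
  | succ m ih =>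
    rw [pow_succ', mul_assoc, dual_mul hκ, ih, mul_smul_comm, pow_succ' (-1 : ℂ), mul_smul,
      neg_one_smul, mul_assoc]

theorem bar_pow' {κ : X.R} (hκ : X.bar κ = κ) (m : ℕ) (x : X.R) :
    X.bar (κ ^ m * x) = κ ^ m * X.bar x := by
  induction m with
  | zero => simp
  | succ m ih => rw [pow_succ', mul_assoc, X.bar_mul, hκ, ih, mul_assoc]

theorem pow_central' {κ : X.R} (hκ : κ ∈ X.H (1, 1)) (m : ℕ) (x : X.R) :
    κ ^ m * x = x * κ ^ m := by
  induction m with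
  | zero => simp
  | succ m ih => rw [pow_succ, mul_assoc, X.central hκ, ← mul_assoc, ih, mul_assoc]

variable (X)

/-- `ker κ^(j+1)` -/
def U (κ : X.R) (j : ℕ) : Submodule ℂ X.R := LinearMap.ker (LinearMap.mulLeft ℂ (κ ^ (j + 1)))

variable {X}

theorem mem_U {κ : X.R} {j : ℕ} {x : X.R} : x ∈ U X κ j ↔ κ ^ (j + 1) * x = 0 := Iff.rfl

variable (X)

/-- the classes which are zero in `P_j` -/
def Rr (κ : X.R) (j : ℕ) : Submodule ℂ (U X κ j) where
  carrier := {z | Neg X κ j z}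
  add_mem' := by
    rintro x y ⟨u, hu, hu'⟩ ⟨v, hv, hv'⟩
    refine ⟨u + v, ?_, ?_⟩
    · rw [mul_add, hu, hv, add_zero]
    · rw [Submodule.coe_add, mul_add, mul_add, hu', hv']
  zero_mem' := ⟨0, by simp, by simp⟩
  smul_mem' := by
    rintro a x ⟨u, hu, hu'⟩
    refine ⟨a • u, ?_, ?_⟩
    · rw [mul_smul_comm, hu, smul_zero]
    · rw [Submodule.coe_smul, mul_smul_comm, mul_smul_comm, hu']

variable {X}

theorem mem_Rr {κ : X.R} {j : ℕ} {x : U X κ j} : x ∈ Rr X κ j ↔ Neg X κ j x := Iff.rfl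

/-- `Neg` for products with a central class -/
theorem Neg.mul {κ w : X.R} (hκ : κ ∈ X.H (1, 1)) {j : ℕ} {x : X.R}
    (h : Neg X κ j x) : Neg X κ j (w * x) := by
  obtain ⟨y, h1, h2⟩ := h
  refine ⟨w * y, ?_, ?_⟩
  · rw [pow_central' hκ, mul_assoc, ← pow_central' hκ, h1, mul_zero]
  · rw [pow_central' hκ, mul_assoc, ← pow_central' hκ, h2, pow_central' hκ, pow_central' hκ (j + 1),
      mul_assoc]

theorem U_mul {κ w : X.R} (hκ : κ ∈ X.H (1, 1)) {j : ℕ} {x : X.R}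
    (h : x ∈ U X κ j) : w * x ∈ U X κ j := by
  rw [mem_U] at h ⊢
  rw [pow_central' hκ, mul_assoc, ← pow_central' hκ, h, mul_zero]

theorem U_pr {κ : X.R} (hκ : κ ∈ X.H (1, 1)) {j : ℕ} (i : ℤ × ℤ) {x : X.R}
    (h : x ∈ U X κ j) : pr X i x ∈ U X κ j := by
  rw [mem_U] at h ⊢
  have := pr_mul hκ (j + 1) i.1 i.2 x
  rw [h, map_zero] at this
  exact this.symm

theorem Neg.pr {κ : X.R} (hκ : κ ∈ X.H (1, 1)) {j : ℕ} (i : ℤ × ℤ) {x : X.R}
    (h : Neg X κ j x) : Neg X κ j (pr X i x) := by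
  obtain ⟨y, h1, h2⟩ := h
  refine ⟨NK.pr X (i.1 - 1, i.2 - 1) y, ?_, ?_⟩
  · rw [← pr_mul hκ, h1, map_zero]
  · have e1 := pr_mul hκ j i.1 i.2 x
    have e2 := pr_mul hκ (j + 1) (i.1 - 1) (i.2 - 1) y
    have e3 : ((i.1 - 1 + ((j + 1 : ℕ) : ℤ), i.2 - 1 + ((j + 1 : ℕ) : ℤ)) : ℤ × ℤ) =
        (i.1 + j, i.2 + j) := by
      ext <;> push_cast <;> ring
    rw [e3] at e2
    rw [← e2, ← h2, e1]

end Pool.Agent.Q8.NK
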