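import Pool.Agent.Q8.NK.Trans

/-!
# Ranks of the powers of a nef class
-/

open scoped ComplexConjugate
open Module

namespace Pool.Agent.Q8.NK

open Pool.Agent.W539.DI

theorem finrank_map_add {V W : Type*} [AddCommGroup V] [Module ℂ V] [FiniteDimensional ℂ V]
    [AddCommGroup W] [Module ℂ W] (f : V →ₗ[ℂ] W) (N : Submodule ℂ V) :
    finrank ℂ (Submodule.map f N) + finrank ℂ (LinearMap.ker f ⊓ N : Submodule ℂ V) =
      finrank ℂ N := by
  have h1 := LinearMap.finrank_range_add_finrank_ker (f.domRestrict N)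
  rw [LinearMap.range_domRestrict] at h1
  have h2 : finrank ℂ (LinearMap.ker (f.domRestrict N)) =
      finrank ℂ (LinearMap.ker f ⊓ N : Submodule ℂ V) := by
    have e : LinearMap.ker (f.domRestrict N) =
        Submodule.comap N.subtype (LinearMap.ker f ⊓ N) := by
      ext x
      simp
    rw [e]
    exact (Submodule.comapSubtypeEquivOfLe inf_le_right).finrank_eq
  rw [h2] at h1
  exact h1

variable {n : ℕ} {X Y : KRing n} {κ : X.R}

/-- `ker κ^m` -/
def Kr (X : KRing n) (κ : X.R) (m : ℕ) : Submodule ℂ X.R :=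
  LinearMap.ker (LinearMap.mulLeft ℂ (κ ^ m))

theorem mem_Kr {m : ℕ} {x : X.R} : x ∈ Kr X κ m ↔ κ ^ m * x = 0 := Iff.rfl

theorem Kr_mono (m : ℕ) : Kr X κ m ≤ Kr X κ (m + 1) := by
  intro x hx
  rw [mem_Kr] at hx ⊢
  rw [pow_succ', mul_assoc, hx, mul_zero]

theorem rk_add (m : ℕ) (p q : ℤ) :
    rk X κ m p q + finrank ℂ (Kr X κ m ⊓ X.H (p, q) : Submodule ℂ X.R) = X.h p q :=
  finrank_map_add (LinearMap.mulLeft ℂ (κ ^ m)) (X.H (p, q))

theorem rk_zero (p q : ℤ) : rk X κ 0 p q = X.h p q := by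
  have h := rk_add (κ := κ) 0 p q
  have e : Kr X κ 0 = ⊥ := by
    rw [eq_bot_iff]
    intro x hx
    rw [mem_Kr] at hx
    simpa using hx
  rw [e, bot_inf_eq, finrank_bot, add_zero] at h
  exact h

theorem rk_neg (m : ℕ) {p q : ℤ} (h : p < 0 ∨ q < 0) : rk X κ m p q = 0 := by
  unfold rk
  rw [X.van p q h, Submodule.map_bot, finrank_bot]

theorem rk_big (hκ : κ ∈ X.H (1, 1)) {m : ℕ} (hm : n < m) (p q : ℤ) : rk X κ m p q = 0 := by
  by_cases h : p < 0 ∨ q < 0
  · exact rk_neg m h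
  · unfold rk
    have e : Submodule.map (LinearMap.mulLeft ℂ (κ ^ m)) (X.H (p, q)) = ⊥ := by
      rw [eq_bot_iff]
      rintro _ ⟨x, hx, rfl⟩
      have h1 : κ ^ m * x ∈ X.H (p + m, q + m) := X.pow_mul_mem hκ m hx
      rw [X.van_top (by omega)] at h1
      exact h1
    rw [e, finrank_bot]

/-- the classes of type `(p, q)` which are zero in `P_j` -/
def Zn (X : KRing n) (κ : X.R) (j : ℕ) (p q : ℤ) : Submodule ℂ X.R :=
  Submodule.map (U X κ j).subtype
    (LinearMap.ker (mk (X := X) (κ := κ) j) ⊓ Submodule.comap (U X κ j).subtype (X.H (p, q)))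

theorem mem_Zn {j : ℕ} {p q : ℤ} {x : X.R} :
    x ∈ Zn X κ j p q ↔ x ∈ X.H (p, q) ∧ Neg X κ j x := by
  constructor
  · rintro ⟨y, ⟨h1, h2⟩, rfl⟩
    exact ⟨h2, mk_zero.mp h1⟩
  · rintro ⟨h1, h2⟩
    have hU : x ∈ U X κ j := by
      obtain ⟨y, h3, h4⟩ := h2
      rw [mem_U, pow_succ', mul_assoc, h4, ← mul_assoc, ← pow_succ']
      exact h3
    exact ⟨⟨x, hU⟩, ⟨mk_zero.mpr h2, h1⟩, rfl⟩

theorem primDim_eq (j : ℕ) (p q : ℤ) : primDim X κ j p q = finrank ℂ (PH X κ j (p, q)) := by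
  have h1 := finrank_map_add (mk (X := X) (κ := κ) j)
    (Submodule.comap (U X κ j).subtype (X.H (p, q)))
  have h2 : finrank ℂ (Submodule.comap (U X κ j).subtype (X.H (p, q))) =
      finrank ℂ (kerPart X κ j p q) := by
    have e : Submodule.comap (U X κ j).subtype (X.H (p, q)) =
        Submodule.comap (U X κ j).subtype (kerPart X κ j p q) := by
      ext x
      unfold kerPart
      simp only [Submodule.mem_comap, Submodule.mem_inf]
      exact ⟨fun h => ⟨x.2, h⟩, fun h => h.2⟩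
    rw [e]
    exact (Submodule.comapSubtypeEquivOfLe (inf_le_left : kerPart X κ j p q ≤ U X κ j)).finrank_eq
  have h3 : finrank ℂ (LinearMap.ker (mk (X := X) (κ := κ) j) ⊓
      Submodule.comap (U X κ j).subtype (X.H (p, q)) : Submodule ℂ (U X κ j)) =
      finrank ℂ (Zn X κ j p q) :=
    (LinearEquiv.finrank_eq (Submodule.equivMapOfInjective _ (U X κ j).injective_subtype _))
  have h4 : Zn X κ j p q = negPart X κ j p q := by
    ext x
    rw [mem_Zn]
    exact Iff.rfl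
  rw [h2, h3, h4] at h1
  unfold primDim
  rw [← h1]
  exact Nat.add_sub_cancel _ _

/-- The dimensions of the primitive parts are the second differences of the ranks. -/
theorem finrank_PH (hκ : κ ∈ X.H (1, 1)) (j : ℕ) (p q : ℤ) :
    finrank ℂ (PH X κ j (p, q)) + rk X κ (j + 1) p q + rk X κ (j + 1) (p - 1) (q - 1) =
      rk X κ j p q + rk X κ (j + 2) (p - 1) (q - 1) := by
  have h1 := finrank_map_add (mk (X := X) (κ := κ) j)
    (Submodule.comap (U X κ j).subtype (X.H (p, q)))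
  have h2 : finrank ℂ (Submodule.comap (U X κ j).subtype (X.H (p, q))) =
      finrank ℂ (Kr X κ (j + 1) ⊓ X.H (p, q) : Submodule ℂ X.R) := by
    have e : Submodule.comap (U X κ j).subtype (X.H (p, q)) =
        Submodule.comap (U X κ j).subtype (Kr X κ (j + 1) ⊓ X.H (p, q)) := by
      ext x
      simp only [Submodule.mem_comap, Submodule.mem_inf]
      exact ⟨fun h => ⟨x.2, h⟩, fun h => h.2⟩
    rw [e]
    exact (Submodule.comapSubtypeEquivOfLe (inf_le_left : _ ≤ U X κ j)).finrank_eq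
  have h3 : finrank ℂ (LinearMap.ker (mk (X := X) (κ := κ) j) ⊓
      Submodule.comap (U X κ j).subtype (X.H (p, q)) : Submodule ℂ (U X κ j)) =
      finrank ℂ (Zn X κ j p q) :=
    (LinearEquiv.finrank_eq (Submodule.equivMapOfInjective _ (U X κ j).injective_subtype _))
  have h4 := finrank_map_add (LinearMap.mulLeft ℂ (κ ^ j)) (Zn X κ j p q)
  have h5 : (LinearMap.ker (LinearMap.mulLeft ℂ (κ ^ j)) ⊓ Zn X κ j p q : Submodule ℂ X.R) =
      Kr X κ j ⊓ X.H (p, q) := by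
    ext x
    rw [Submodule.mem_inf, Submodule.mem_inf, mem_Zn]
    refine ⟨fun h => ⟨h.1, h.2.1⟩, fun h => ⟨h.1, h.2, 0, by simp, ?_⟩⟩
    rw [mem_Kr.mp h.1, mul_zero]
  have h6 : Submodule.map (LinearMap.mulLeft ℂ (κ ^ j)) (Zn X κ j p q) =
      Submodule.map (LinearMap.mulLeft ℂ (κ ^ (j + 1)))
        (Kr X κ (j + 2) ⊓ X.H (p - 1, q - 1)) := by
    apply le_antisymm
    · rintro _ ⟨x, hx, rfl⟩
      obtain ⟨h7, y, h8, h9⟩ := mem_Zn.mp hx
      refine ⟨pr X (p - 1, q - 1) y, ⟨?_, pr_mem X _ y⟩, ?_⟩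
      · rw [SetLike.mem_coe, mem_Kr, ← pr_mul hκ, h8, map_zero]
      · show κ ^ (j + 1) * pr X (p - 1, q - 1) y = κ ^ j * x
        rw [← pr_mul hκ, ← h9]
        have e : ((p - 1 + ((j + 1 : ℕ) : ℤ), q - 1 + ((j + 1 : ℕ) : ℤ)) : ℤ × ℤ) =
            (p + j, q + j) := by
          ext <;> push_cast <;> ring
        rw [e]
        exact pr_same X (X.pow_mul_mem hκ j h7)
    · rintro _ ⟨y, ⟨h7, h8⟩, rfl⟩
      have h9 : κ * y ∈ X.H (p, q) := by
        have := X.mul_mem hκ h8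
        have e : ((1 + (p - 1), 1 + (q - 1)) : ℤ × ℤ) = (p, q) := by ext <;> simp
        rwa [e] at this
      have h10 : κ ^ j * (κ * y) = κ ^ (j + 1) * y := by rw [pow_succ, mul_assoc]
      refine ⟨κ * y, mem_Zn.mpr ⟨h9, y, mem_Kr.mp h7, h10⟩, ?_⟩
      exact h10
  have h7 := finrank_map_add (LinearMap.mulLeft ℂ (κ ^ (j + 1)))
    (Kr X κ (j + 2) ⊓ X.H (p - 1, q - 1))
  have h8 : (LinearMap.ker (LinearMap.mulLeft ℂ (κ ^ (j + 1))) ⊓
      (Kr X κ (j + 2) ⊓ X.H (p - 1, q - 1)) : Submodule ℂ X.R) =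
      Kr X κ (j + 1) ⊓ X.H (p - 1, q - 1) := by
    rw [← inf_assoc]
    congr 1
    exact inf_eq_left.mpr (Kr_mono (j + 1))
  rw [h5, h6] at h4
  rw [h8] at h7
  rw [h2, h3] at h1
  have r1 := rk_add (κ := κ) (j + 1) p q
  have r2 := rk_add (κ := κ) j p q
  have r3 := rk_add (κ := κ) (j + 1) (p - 1) (q - 1)
  have r4 := rk_add (κ := κ) (j + 2) (p - 1) (q - 1)
  have e : finrank ℂ (PH X κ j (p, q)) = finrank ℂ (Submodule.map (mk (X := X) (κ := κ) j)
    (Submodule.comap (U X κ j).subtype (X.H (p, q)))) := rfl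
  rw [e]
  omega

/-- If the primitive parts have the same dimensions from `m₀` on then the powers of the classes have
the same ranks from `m₀` on. -/
theorem rk_eq {κ' : Y.R} (hκ : κ ∈ X.H (1, 1)) (hκ' : κ' ∈ Y.H (1, 1)) (m₀ : ℕ) (k : ℤ)
    (h : ∀ j, m₀ ≤ j → j ≤ n → ∀ p q : ℤ, p - q = k →
      finrank ℂ (PH X κ j (p, q)) = finrank ℂ (PH Y κ' j (p, q))) :
    ∀ t : ℕ, ∀ p q : ℤ, p - q = k → p < t → ∀ j, m₀ ≤ j → rk X κ j p q = rk Y κ' j p q := by
  intro t
  induction t with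
  | zero =>
    intro p q _ hp j _
    rw [rk_neg j (Or.inl (by simpa using hp)), rk_neg j (Or.inl (by simpa using hp))]
  | succ t ih =>
    intro p q hpq hp j hj
    have key : ∀ d j, m₀ ≤ j → n < j + d → rk X κ j p q = rk Y κ' j p q := by
      intro d
      induction d with
      | zero =>
        intro j _ hj
        rw [rk_big hκ (by omega), rk_big hκ' (by omega)]
      | succ d ihd =>
        intro j hj hd
        by_cases hjn : n < j
        · rw [rk_big hκ hjn, rk_big hκ' hjn]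
        · have e1 := ihd (j + 1) (by omega) (by omega)
          have e2 := ih (p - 1) (q - 1) (by omega) (by push_cast at hp; omega) (j + 1) (by omega)
          have e3 := ih (p - 1) (q - 1) (by omega) (by push_cast at hp; omega) (j + 2) (by omega)
          have e4 := finrank_PH hκ j p q
          have e5 := finrank_PH hκ' j p q
          have e6 := h j hj (by omega) p q hpq
          omega
    exact key (n + 1) j hj (by omega)

theorem prim_h (h : IsNef X κ) (c j : ℕ) (hc : c + j = n) (p q : ℤ) :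
    (prim h c j hc).h p q = finrank ℂ (PH X κ j (p, q)) := rfl

theorem primDim_neg (j : ℕ) {p q : ℤ} (h : p < 0 ∨ q < 0) : primDim X κ j p q = 0 := by
  have e : kerPart X κ j p q = ⊥ := by
    unfold kerPart
    rw [X.van p q h, inf_bot_eq]
  unfold primDim
  rw [e, finrank_bot, Nat.zero_sub]

/-- **Ranks.** -/
theorem ranks {Φ : FM X Y} (hS : Serre Φ) {s : ℝ} (hs : s ≠ 0) (hX : IsNef X (sc X s))
    (hY : IsNef Y (sc Y s)) (m : ℕ) (p q : ℤ)
    (h : ∀ (j : ℕ) (p' q' : ℤ), m ≤ j → p' - q' = p - q → 0 ≤ p' → 0 ≤ q' →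
      p' + q' + j + 3 ≤ n → primDim X (sc X s) j p' q' = primDim Y (sc Y s) j p' q') :
    rk X (sc X s) m p q = rk Y (sc Y s) m p q := by
  refine rk_eq hX.mem hY.mem m (p - q) ?_ (p.toNat + 1) p q rfl (by push_cast; omega) m le_rfl
  intro j hj hjn p' q' hpq
  obtain ⟨c, hc⟩ : ∃ c, c + j = n := ⟨n - j, by omega⟩
  rw [← prim_h hX c j hc, ← prim_h hY c j hc]
  refine (primIso s hS hs hX hY c j hc).low (p - q) (fun p' q' h1 h2 => ?_) p' q' hpq
  rw [prim_h, prim_h, ← primDim_eq, ← primDim_eq]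
  by_cases h0 : p' < 0 ∨ q' < 0
  · rw [primDim_neg j h0, primDim_neg j h0]
  · push Not at h0
    exact h j p' q' hj h1 h0.1 h0.2 (by omega)

theorem rk_sc {s : ℝ} (hs : s ≠ 0) (m : ℕ) (p q : ℤ) :
    rk X (sc X s) m p q = rk X X.c m p q := by
  have hs' : ((s : ℂ) ^ m) ≠ 0 := pow_ne_zero _ (by exact_mod_cast hs)
  have e : LinearMap.mulLeft ℂ (sc X s ^ m) = ((s : ℂ) ^ m) • LinearMap.mulLeft ℂ (X.c ^ m) := by
    refine LinearMap.ext fun x => ?_
    show ((s : ℂ) • X.c) ^ m * x = (s : ℂ) ^ m • (X.c ^ m * x)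
    rw [smul_pow, smul_mul_assoc]
  have e2 : Submodule.map (LinearMap.mulLeft ℂ (sc X s ^ m)) (X.H (p, q)) =
      Submodule.map (LinearMap.mulLeft ℂ (X.c ^ m)) (X.H (p, q)) := by
    rw [e, Submodule.map_smul _ _ _ hs']
  unfold rk
  rw [e2]

theorem primDim_sc {s : ℝ} (hs : s ≠ 0) (j : ℕ) (p q : ℤ) :
    primDim X (sc X s) j p q = primDim X X.c j p q := by
  have h1 := finrank_PH (X := X) (κ := sc X s) (Submodule.smul_mem _ _ X.c_mem) j p q
  have h2 := finrank_PH (X := X) (κ := X.c) X.c_mem j p q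
  rw [← primDim_eq, rk_sc hs, rk_sc hs, rk_sc hs, rk_sc hs] at h1
  rw [← primDim_eq] at h2
  omega

/-- **Ranks of the powers of the first Chern class.** -/
theorem ranks_c {Φ : FM X Y} (hS : Serre Φ) {s : ℝ} (hs : s ≠ 0) (hX : IsNef X (sc X s))
    (hY : IsNef Y (sc Y s)) (m : ℕ) (p q : ℤ)
    (h : ∀ (j : ℕ) (p' q' : ℤ), m ≤ j → p' - q' = p - q → 0 ≤ p' → 0 ≤ q' →
      p' + q' + j + 3 ≤ n → primDim X X.c j p' q' = primDim Y Y.c j p' q') :
    rk X X.c m p q = rk Y Y.c m p q := by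
  rw [← rk_sc hs, ← rk_sc hs]
  refine ranks hS hs hX hY m p q fun j p' q' h1 h2 h3 h4 h5 => ?_
  rw [primDim_sc hs, primDim_sc hs]
  exact h j p' q' h1 h2 h3 h4 h5

theorem rk_inj {κ : X.R} {m : ℕ} {p q : ℤ} (h : ∀ x ∈ X.H (p, q), κ ^ m * x = 0 → x = 0) :
    rk X κ m p q = X.h p q :=
  finrank_map_of_inj _ _ h

end Pool.Agent.Q8.NK
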