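import Pool.Agent.Q8.NK.Five

/-!
# Holomorphic forms and semiample classes
-/

open Module

namespace Pool.Agent.Q8.NK

open Pool.Agent.W539.DI

variable {n : ℕ}

/-- The holomorphic forms of a variety with a semiample class `κ = f^* κ_B`, where `f : X → B` is a
morphism with connected fibres onto a projective variety `B` of dimension `ν` and `κ_B` is ample;
`b p` is the number `h^(p,0)` of a resolution of `B`. At a general point `κ` is represented by a
semipositive form `θ` of rank `ν`, and the integral of `x ∧ bar x ∧ θ^m ∧ ω^(n-p-m)` shows that a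
`p`-form `x` is killed by `κ^m` if and only if all its components `x_I` with
`#({1, …, ν} \ I) ≥ m` vanish; for `p + m = ν + 1` this means that `x` comes from `B`. -/
structure Semi (X : KRing n) (κ : X.R) (ν : ℕ) (b : ℕ → ℕ) : Prop where
  nil : κ ^ (ν + 1) = 0
  inj : ∀ p m : ℕ, p + m ≤ ν → ∀ x ∈ X.H ((p : ℤ), 0), κ ^ m * x = 0 → x = 0
  hor : ∀ p m : ℕ, p + m = ν + 1 → 0 < m →
    finrank ℂ (LinearMap.ker (LinearMap.mulLeft ℂ (κ ^ m)) ⊓ X.H ((p : ℤ), 0) :
      Submodule ℂ X.R) = b p

theorem primDim_row {X : KRing n} {κ : X.R} (hκ : κ ∈ X.H (1, 1)) (j : ℕ) (p : ℤ) :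
    primDim X κ j p 0 + rk X κ (j + 1) p 0 = rk X κ j p 0 := by
  have h := finrank_PH hκ j p 0
  have z1 : rk X κ (j + 1) (p - 1) (0 - 1) = 0 := rk_neg _ (Or.inr (by norm_num))
  have z2 : rk X κ (j + 2) (p - 1) (0 - 1) = 0 := rk_neg _ (Or.inr (by norm_num))
  rw [z1, z2, ← primDim_eq] at h
  omega

variable {X Y : KRing n} {κ : X.R} {κ' : Y.R}

/-- the ranks on the holomorphic forms which are determined by `B` -/
theorem Semi.rank {ν : ℕ} {b : ℕ → ℕ} (hX : Semi X κ ν b) (hY : Semi Y κ' ν b) (p m : ℕ)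
    (h : p + m ≤ ν + 1 ∨ ν < m) (h0 : X.h p 0 = Y.h p 0 ∨ ν < m) :
    rk X κ m p 0 = rk Y κ' m p 0 := by
  by_cases h2 : ν < m
  · have e : ∀ (Z : KRing n) (z : Z.R), z ^ (ν + 1) = 0 → rk Z z m p 0 = 0 := by
      intro Z z hz
      have hz' : z ^ m = 0 := by
        obtain ⟨r, rfl⟩ := Nat.exists_eq_add_of_le (Nat.succ_le_of_lt h2)
        rw [Nat.succ_eq_add_one, pow_add, hz, zero_mul]
      unfold rk
      rw [hz']
      have : LinearMap.mulLeft ℂ (0 : Z.R) = 0 := by ext; simp
      rw [this, Submodule.map_zero, finrank_bot]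
    rw [e X κ hX.nil, e Y κ' hY.nil]
  · have h1 := h.resolve_right h2
    have h0' := h0.resolve_right h2
    rcases Nat.lt_or_ge (p + m) (ν + 1) with h3 | h3
    · rw [rk_inj (hX.inj p m (by omega)), rk_inj (hY.inj p m (by omega)), h0']
    · rcases Nat.eq_zero_or_pos m with rfl | hm
      · rw [rk_zero, rk_zero, h0']
      · have e1 := rk_add (X := X) (κ := κ) m p 0
        have e2 := rk_add (X := Y) (κ := κ') m p 0
        have e3 := hX.hor p m (by omega) hm
        have e4 := hY.hor p m (by omega) hm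
        unfold Kr at e1 e2
        omega

/-- **Fivefolds with semiample canonical or anticanonical class.** -/
theorem fivefolds_semi {X Y : KRing 5} {Φ : FM X Y} (hS : Serre Φ) {s : ℝ} (hs : s ≠ 0)
    (hX : IsNef X (sc X s)) (hY : IsNef Y (sc Y s)) (ν : ℕ) (b : ℕ → ℕ)
    (sX : Semi X (sc X s) ν b) (sY : Semi Y (sc Y s) ν b) (h1 : X.h 1 0 = Y.h 1 0)
    (hO : ν ≤ 1 → chiO X = chiO Y)
    (t : ℤ) (lX : LibgoberWood5 X t) (lY : LibgoberWood5 Y t) (p q : ℤ) : X.h p q = Y.h p q := by
  have r : ∀ m : ℕ, rk X (sc X s) m 1 0 = rk Y (sc Y s) m 1 0 := by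
    intro m
    refine sX.rank sY 1 m ?_ (Or.inl (by exact_mod_cast h1))
    omega
  refine fivefolds hS hs hX hY ?_ ?_ t lX lY p q
  · intro j _
    have e1 := primDim_row hX.mem j 1
    have e2 := primDim_row hY.mem j 1
    have e3 := r j
    have e4 := r (j + 1)
    omega
  · by_cases hν : ν ≤ 1
    · exact Or.inr (hO hν)
    · left
      -- the kernel of `κ` on the two-forms
      have k : ∀ (Z : KRing 5) (z : Z.R), z ∈ Z.H (1, 1) → Semi Z z ν b →
          primDim Z z 0 2 0 = if ν = 2 then b 2 else 0 := by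
        intro Z z hz hZ
        have e1 := primDim_row hz 0 2
        have e2 := rk_add (X := Z) (κ := z) 1 2 0
        rw [rk_zero] at e1
        simp only [zero_add] at e1
        by_cases h2 : ν = 2
        · have e3 := hZ.hor 2 1 (by omega) (by norm_num)
          unfold Kr at e2
          rw [if_pos h2]
          have e4 : ((2 : ℕ) : ℤ) = 2 := rfl
          rw [e4] at e3
          omega
        · have e3 := rk_inj (X := Z) (κ := z) (m := 1) (p := 2) (q := 0)
            (hZ.inj 2 1 (by omega))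
          rw [if_neg h2]
          omega
      rw [k X _ hX.mem sX, k Y _ hY.mem sY]

end Pool.Agent.Q8.NK
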