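import Pool.Agent.Q8.NK.Prim

/-!
# Derived equivalences and primitive parts
-/

open scoped ComplexConjugate
open Module

namespace Pool.Agent.Q8.NK

open Pool.Agent.W539.DI

variable {n : ℕ}

theorem col_eq {X : KRing n} {κ : X.R} (hκ : κ ∈ X.H (1, 1)) (j : ℕ) (p q : ℤ) :
    (⨆ k : ℤ, PH X κ j (p + k, q + k)) =
      Submodule.map (mk j) (Submodule.comap (U X κ j).subtype (⨆ k : ℤ, X.H (p + k, q + k))) := by
  classical
  apply le_antisymm
  · refine iSup_le fun k => ?_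
    intro v hv
    obtain ⟨x, hx, rfl⟩ := mem_PH.mp hv
    exact ⟨x, Submodule.mem_iSup_of_mem k hx, rfl⟩
  · rintro _ ⟨x, hx, rfl⟩
    have hx' : (x : X.R) ∈ ⨆ k : ℤ, X.H (p + k, q + k) := hx
    rw [Submodule.mem_iSup_iff_exists_finsupp] at hx'
    obtain ⟨f, hf, hfx⟩ := hx'
    have hpr : ∀ k, pr X (p + k, q + k) x = f k := by
      intro k
      rw [← hfx, Finsupp.sum, map_sum]
      by_cases hk : k ∈ f.support
      · rw [Finset.sum_eq_single_of_mem k hk]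
        · exact pr_same X (hf k)
        · intro i _ hik
          refine pr_ne X (hf i) fun h => hik ?_
          rw [Prod.mk.injEq] at h
          omega
      · rw [Finsupp.notMem_support_iff.mp hk]
        refine Finset.sum_eq_zero fun i hi => ?_
        refine pr_ne X (hf i) fun h => hk ?_
        rw [Prod.mk.injEq] at h
        have : i = k := by omega
        rwa [← this]
    have hU : ∀ k, f k ∈ U X κ j := fun k => by
      rw [← hpr k]
      exact U_pr hκ _ x.2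
    have hsum : x = ∑ k ∈ f.support, (⟨f k, hU k⟩ : U X κ j) := by
      refine Subtype.ext ?_
      rw [Submodule.coe_sum, ← hfx, Finsupp.sum]
    rw [hsum, map_sum]
    exact Submodule.sum_mem _ fun k _ =>
      Submodule.mem_iSup_of_mem k (mem_PH.mpr ⟨⟨f k, hU k⟩, hf k, rfl⟩)

variable {X Y : KRing n} (Φ : FM X Y) (s : ℝ)

/-- `s c₁` -/
noncomputable abbrev sc (X : KRing n) (s : ℝ) : X.R := (s : ℂ) • X.c

theorem Serre.pow {Φ : FM X Y} (hS : Serre Φ) (m : ℕ) (x : X.R) :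
    Φ.φ (sc X s ^ m * x) = sc Y s ^ m * Φ.φ x := by
  induction m with
  | zero => simp
  | succ m ih =>
    rw [pow_succ', mul_assoc, smul_mul_assoc, map_smul, hS, ih, pow_succ', mul_assoc,
      smul_mul_assoc]

theorem mukai_eq {X : KRing n} {s : ℝ} (hs : s ≠ 0) {j : ℕ} {x y : X.R}
    (hr : X.bar (sc X s) = sc X s) (hy : y ∈ U X (sc X s) j) :
    X.mukai x (sc X s ^ j * X.bar y) = Mf X (sc X s) j x y := by
  unfold KRing.mukai KRing.expc Mf
  rw [Finset.sum_mul, map_sum, Finset.sum_eq_single 0]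
  · simp
  · intro m _ hm
    obtain ⟨t, rfl⟩ : ∃ t, m = t + 1 := Nat.exists_eq_succ_of_ne_zero hm
    have h1 : sc X s ^ (j + 1) * X.bar y = 0 := by rw [← bar_pow' hr, mem_U.mp hy, map_zero]
    have h2 : X.c * (sc X s ^ j * X.bar y) = 0 := by
      rw [pow_succ', mul_assoc, smul_mul_assoc] at h1
      exact (smul_eq_zero.mp h1).resolve_left (by exact_mod_cast hs)
    have h3 : X.c ^ (t + 1) * (X.dual x * (sc X s ^ j * X.bar y)) = 0 := by
      rw [pow_central' X.c_mem, mul_assoc, ← pow_central' X.c_mem, pow_succ,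
        mul_assoc, h2, mul_zero, mul_zero]
    rw [smul_mul_assoc, h3, smul_zero, map_zero]
  · intro h
    simp at h

theorem map_U {Φ : FM X Y} (hS : Serre Φ) (j : ℕ) :
    Submodule.map (Φ.φ : X.R →ₗ[ℂ] Y.R) (U X (sc X s) j) = U Y (sc Y s) j := by
  apply le_antisymm
  · rintro _ ⟨x, hx, rfl⟩
    rw [mem_U]
    show sc Y s ^ (j + 1) * Φ.φ x = 0
    rw [← hS.pow, mem_U.mp hx, map_zero]
  · intro y hy
    obtain ⟨x, rfl⟩ := Φ.φ.surjective y
    refine ⟨x, ?_, rfl⟩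
    rw [SetLike.mem_coe, mem_U]
    apply Φ.φ.injective
    rw [hS.pow, map_zero]
    exact mem_U.mp hy

theorem Neg_iff {Φ : FM X Y} (hS : Serre Φ) (j : ℕ) (x : X.R) :
    Neg Y (sc Y s) j (Φ.φ x) ↔ Neg X (sc X s) j x := by
  constructor
  · rintro ⟨y, h1, h2⟩
    obtain ⟨u, rfl⟩ := Φ.φ.surjective y
    refine ⟨u, ?_, ?_⟩
    · apply Φ.φ.injective
      rw [hS.pow, h1, map_zero]
    · apply Φ.φ.injective
      rw [hS.pow, hS.pow, h2]
  · rintro ⟨u, h1, h2⟩
    refine ⟨Φ.φ u, ?_, ?_⟩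
    · rw [← hS.pow, h1, map_zero]
    · rw [← hS.pow, ← hS.pow, h2]

/-- the isomorphism of the spaces `ker κ^(j+1)` -/
noncomputable def eU {Φ : FM X Y} (hS : Serre Φ) (j : ℕ) : U X (sc X s) j ≃ₗ[ℂ] U Y (sc Y s) j :=
  LinearEquiv.ofSubmodules Φ.φ _ _ (map_U s hS j)

theorem eU_coe {Φ : FM X Y} (hS : Serre Φ) (j : ℕ) (x : U X (sc X s) j) :
    (eU s hS j x : Y.R) = Φ.φ x := rfl

theorem map_Rr {Φ : FM X Y} (hS : Serre Φ) (j : ℕ) :
    Submodule.map (eU s hS j : U X (sc X s) j →ₗ[ℂ] U Y (sc Y s) j) (Rr X (sc X s) j) =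
      Rr Y (sc Y s) j := by
  apply le_antisymm
  · rintro _ ⟨x, hx, rfl⟩
    exact (Neg_iff s hS j x).mpr hx
  · intro y hy
    obtain ⟨x, rfl⟩ := (eU s hS j).surjective y
    exact ⟨x, (Neg_iff s hS j x).mp hy, rfl⟩

/-- the isomorphism of the primitive parts -/
noncomputable def eP {Φ : FM X Y} (hS : Serre Φ) (j : ℕ) :
    Pv X (sc X s) j ≃ₗ[ℂ] Pv Y (sc Y s) j :=
  Submodule.Quotient.equiv _ _ (eU s hS j) (map_Rr s hS j)

theorem eP_mk {Φ : FM X Y} (hS : Serre Φ) (j : ℕ) (x : U X (sc X s) j) :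
    eP s hS j (mk j x) = mk j (eU s hS j x) := rfl

/-- A derived equivalence induces isometries of the primitive parts with respect to `c₁`. -/
noncomputable def primIso {Φ : FM X Y} (hS : Serre Φ) (hs : s ≠ 0) (hX : IsNef X (sc X s))
    (hY : IsNef Y (sc Y s)) (c j : ℕ) (hc : c + j = n) :
    PL.Iso (prim hX c j hc) (prim hY c j hc) where
  φ := eP s hS j
  col := by
    intro p q
    show Submodule.map (eP s hS j : Pv X (sc X s) j →ₗ[ℂ] Pv Y (sc Y s) j)
      (⨆ k : ℤ, PH X (sc X s) j (p + k, q + k)) = ⨆ k : ℤ, PH Y (sc Y s) j (p + k, q + k)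
    rw [col_eq hX.mem, col_eq hY.mem]
    apply le_antisymm
    · rintro _ ⟨_, ⟨x, hx, rfl⟩, rfl⟩
      refine ⟨eU s hS j x, ?_, rfl⟩
      show Φ.φ (x : X.R) ∈ ⨆ k : ℤ, Y.H (p + k, q + k)
      rw [← Φ.hodge p q]
      exact ⟨x, hx, rfl⟩
    · rintro _ ⟨y, hy, rfl⟩
      obtain ⟨x, rfl⟩ := (eU s hS j).surjective y
      refine ⟨mk j x, ⟨x, ?_, rfl⟩, rfl⟩
      have hy' : Φ.φ (x : X.R) ∈ ⨆ k : ℤ, Y.H (p + k, q + k) := hy
      rw [← Φ.hodge p q] at hy'
      obtain ⟨z, hz, hzx⟩ := hy'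
      have : z = x := Φ.φ.injective hzx
      show (x : X.R) ∈ ⨆ k : ℤ, X.H (p + k, q + k)
      rw [← this]
      exact hz
  isom := by
    intro u v
    obtain ⟨x, rfl⟩ := mk_surj j u
    obtain ⟨y, rfl⟩ := mk_surj j v
    show Pβ j (eP s hS j (mk j x)) (eP s hS j (mk j y)) = Pβ j (mk j x) (mk j y)
    rw [eP_mk, eP_mk, Pβ_mk hX, Pβ_mk hY, eU_coe, eU_coe]
    have key : ∀ x y : U X (sc X s) j, Mf Y (sc Y s) j (Φ.φ (x : X.R)) (Φ.φ (y : X.R)) =
        Mf X (sc X s) j x y := by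
      intro x y
      have h1 := mukai_eq (x := Φ.φ (x : X.R)) hs hY.real (eU s hS j y).2
      rw [eU_coe] at h1
      rw [← mukai_eq hs hX.real y.2, ← h1, ← Φ.real, ← hS.pow, Φ.isom]
    unfold bf
    rw [key, key]

end Pool.Agent.Q8.NK
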